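import Pool.Agent.H53.SD.Deg

/-!
Random restrictions: a threshold of few conjunctions of literals cannot compute `F` composed with
the lifting gadget when `F` has large sign degree.
-/

set_option autoImplicit false

namespace Pool.Agent.H53.SD

open Finset

/-- a threshold on finitely many values can be made strict -/
lemma exists_strict_threshold {X : Type*} [Fintype X] (G : X → ℝ) (θ : ℝ) :
    ∃ θ' : ℝ, (∀ x, θ ≤ G x → θ' < G x) ∧ (∀ x, G x < θ → G x < θ') := by
  classical
  by_cases h : (univ.filter (fun x => G x < θ)).Nonempty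
  · obtain ⟨x0, hx0, hmax⟩ := exists_max_image _ G h
    rw [mem_filter] at hx0
    refine ⟨(G x0 + θ) / 2, fun x hx => by linarith [hx0.2], fun x hx => ?_⟩
    have := hmax x (by simp [hx])
    linarith [hx0.2]
  · refine ⟨θ - 1, fun x hx => by linarith, fun x hx => ?_⟩
    exact absurd ⟨x, by simp [hx]⟩ h

/-- a conjunction of literals: `L` lists the required values -/
def conjF {U : Type*} (L : Finset (U × Bool)) (x : U → Bool) : Bool :=
  decide (∀ l ∈ L, x l.1 = l.2)

lemma conjF_eq_true {U : Type*} (L : Finset (U × Bool)) (x : U → Bool) :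
    conjF L x = true ↔ ∀ l ∈ L, x l.1 = l.2 := by
  simp [conjF]

section restrict

variable {V : Type*}

/-- the restriction `ρ v = (b, e, r)`: select data bit `b`, xor mask `e`, unselected bit `r` -/
def rest (ρ : V → Bool × Bool × Bool) (y : V → Bool) : V × (Bool × Bool) → Bool := fun q =>
  if q.2.1 then (if q.2.2 then (ρ q.1).2.1 else (ρ q.1).1)
  else (if q.2.2 = (ρ q.1).1 then xor (y q.1) (ρ q.1).2.1 else (ρ q.1).2.2)

lemma comp_gadF_rest (F : (V → Bool) → Bool) (ρ : V → Bool × Bool × Bool) (y : V → Bool) :
    comp F gadF (rest ρ y) = F y := by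
  unfold comp
  congr 1
  funext v
  unfold gadF rest
  simp

/-- local condition: the literal `(q, val)` is not falsified by the fixed bits -/
def okLit (q : Bool × Bool) (val : Bool) (s : Bool × Bool × Bool) : Bool :=
  if q.1 then (if q.2 then s.2.1 == val else s.1 == val)
  else (q.2 == s.1) || (s.2.2 == val)

lemma card_okLit (q : Bool × Bool) (val : Bool) :
    ((univ : Finset (Bool × Bool × Bool)).filter (fun s => okLit q val s = true)).card ≤ 6 := by
  revert q val
  decide

lemma okLit_of_rest (ρ : V → Bool × Bool × Bool) (y : V → Bool) (v : V) (q : Bool × Bool)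
    (val : Bool) (h : rest ρ y (v, q) = val) : okLit q val (ρ v) = true := by
  unfold rest at h
  unfold okLit
  obtain ⟨h1, h2⟩ := q
  simp only at h ⊢
  cases h1
  · simp only [Bool.false_eq_true, if_false] at h ⊢
    by_cases h3 : h2 = (ρ v).1
    · simp [h3]
    · rw [if_neg h3] at h
      simp [h]
  · simp only [if_true] at h ⊢
    cases h2
    · simpa using h
    · simpa using h

variable [Fintype V] [DecidableEq V]

/-- the blocks touched by a conjunction -/
def touch (L : Finset ((V × (Bool × Bool)) × Bool)) : Finset V := L.image (fun l => l.1.1)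

/-- restrictions that do not kill the conjunction outright -/
noncomputable def alive (L : Finset ((V × (Bool × Bool)) × Bool)) :
    Finset (V → Bool × Bool × Bool) := by
  classical
  exact univ.filter (fun ρ => ∃ y, conjF L (rest ρ y) = true)

lemma card_alive_le (L : Finset ((V × (Bool × Bool)) × Bool)) :
    ((alive L).card : ℝ) ≤ 8 ^ (Fintype.card V) * (3 / 4 : ℝ) ^ (touch L).card := by
  classical
  -- choose a literal for each touched block
  have hch : ∀ v : V, ∃ q : (Bool × Bool) × Bool, v ∈ touch L → ((v, q.1), q.2) ∈ L := by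
    intro v
    by_cases hv : v ∈ touch L
    · unfold touch at hv
      rw [mem_image] at hv
      obtain ⟨⟨⟨v', q⟩, c⟩, hl, hv'⟩ := hv
      simp only at hv'
      subst hv'
      exact ⟨(q, c), fun _ => hl⟩
    · exact ⟨((false, false), false), fun h => absurd h hv⟩
  choose q hq using hch
  set Ω : V → Finset (Bool × Bool × Bool) := fun v =>
    if v ∈ touch L then univ.filter (fun s => okLit (q v).1 (q v).2 s = true) else univ with hΩ
  have hsub : alive L ⊆ Fintype.piFinset Ω := by
    intro ρ hρ
    unfold alive at hρ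
    rw [mem_filter] at hρ
    obtain ⟨_, y, hy⟩ := hρ
    rw [Fintype.mem_piFinset]
    intro v
    rw [hΩ]
    simp only
    split_ifs with hv
    · rw [mem_filter]
      refine ⟨mem_univ _, ?_⟩
      rw [conjF_eq_true] at hy
      exact okLit_of_rest ρ y v (q v).1 (q v).2 (hy _ (hq v hv))
    · exact mem_univ _
  have hcard : ((Fintype.piFinset Ω).card : ℝ) ≤ ∏ v : V, (8 * (if v ∈ touch L then 3 / 4 else 1)) := by
    rw [Fintype.card_piFinset]
    push_cast
    refine prod_le_prod (fun v _ => by positivity) fun v _ => ?_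
    rw [hΩ]
    simp only
    split_ifs with hv
    · have := card_okLit (q v).1 (q v).2
      have h' : (((univ : Finset (Bool × Bool × Bool)).filter
        (fun s => okLit (q v).1 (q v).2 s = true)).card : ℝ) ≤ 6 := by exact_mod_cast this
      linarith
    · have : (univ : Finset (Bool × Bool × Bool)).card = 8 := by decide
      rw [this]
      norm_num
  have hprod : ∏ v : V, ((8 : ℝ) * (if v ∈ touch L then 3 / 4 else 1))
      = 8 ^ (Fintype.card V) * (3 / 4 : ℝ) ^ (touch L).card := by
    rw [prod_mul_distrib, prod_const, card_univ]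
    congr 1
    rw [Finset.prod_ite_mem, univ_inter, prod_const]
  calc ((alive L).card : ℝ) ≤ ((Fintype.piFinset Ω).card : ℝ) := by
        exact_mod_cast card_le_card hsub
    _ ≤ _ := hcard
    _ = _ := hprod

lemma isJunta_conj (L : Finset ((V × (Bool × Bool)) × Bool)) (ρ : V → Bool × Bool × Bool) :
    IsJunta (touch L) (fun y => if conjF L (rest ρ y) = true then (1 : ℝ) else 0) := by
  intro x y hxy
  have : conjF L (rest ρ x) = conjF L (rest ρ y) := by
    unfold conjF
    rw [decide_eq_decide]
    refine forall₂_congr fun l hl => ?_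
    have hv : l.1.1 ∈ touch L := mem_image_of_mem _ hl
    unfold rest
    rw [hxy _ hv]
  simp only [this]

/-- **Thresholds of conjunctions.** If `F` has no sign representation of degree `< d`, then a
threshold of `M` conjunctions of literals computing `F ∘ gadF` has `M ≥ (4/3)^d`. -/
theorem conj_lower_bound (F : (V → Bool) → Bool) (d : ℕ)
    (hF : ∀ D, ∀ P ∈ degLE V D, SignRep P F → d ≤ D) (hd : 0 < d)
    (M : ℕ) (L : Fin M → Finset ((V × (Bool × Bool)) × Bool)) (c : Fin M → ℝ) (θ : ℝ)
    (hf : ∀ x, comp F gadF x =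
      decide (θ ≤ ∑ j, c j * (if conjF (L j) x = true then (1 : ℝ) else 0))) :
    (4 / 3 : ℝ) ^ d ≤ M := by
  classical
  by_contra hcon
  push Not at hcon
  -- a good restriction
  set bad : Finset (Fin M) := univ.filter (fun j => d ≤ (touch (L j)).card) with hbad
  have hex : ∃ ρ : V → Bool × Bool × Bool, ∀ j ∈ bad, ρ ∉ alive (L j) := by
    by_contra hno
    push Not at hno
    have hcover : (univ : Finset (V → Bool × Bool × Bool)) ⊆ bad.biUnion (fun j => alive (L j)) := by
      intro ρ _
      obtain ⟨j, hj, hρ⟩ := hno ρ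
      exact mem_biUnion.2 ⟨j, hj, hρ⟩
    have h1 : (8 : ℝ) ^ (Fintype.card V) ≤ ∑ j ∈ bad, ((alive (L j)).card : ℝ) := by
      have h2 := (card_le_card hcover).trans card_biUnion_le
      have h3 : (univ : Finset (V → Bool × Bool × Bool)).card = 8 ^ (Fintype.card V) := by
        rw [card_univ, Fintype.card_fun]
        rfl
      rw [h3] at h2
      exact_mod_cast h2
    have h4 : ∑ j ∈ bad, ((alive (L j)).card : ℝ)
        ≤ ∑ _j ∈ bad, (8 : ℝ) ^ (Fintype.card V) * (3 / 4 : ℝ) ^ d := by
      refine sum_le_sum fun j hj => (card_alive_le (L j)).trans ?_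
      refine mul_le_mul_of_nonneg_left ?_ (by positivity)
      exact pow_le_pow_of_le_one (by norm_num) (by norm_num) (mem_filter.1 hj).2
    have h5 : ∑ _j ∈ bad, (8 : ℝ) ^ (Fintype.card V) * (3 / 4 : ℝ) ^ d
        ≤ M * ((8 : ℝ) ^ (Fintype.card V) * (3 / 4 : ℝ) ^ d) := by
      rw [sum_const, nsmul_eq_mul]
      refine mul_le_mul_of_nonneg_right ?_ (by positivity)
      have : bad.card ≤ M := by simpa using card_le_univ bad
      exact_mod_cast this
    have h6 : (M : ℝ) * (3 / 4 : ℝ) ^ d < 1 := by
      have e : (4 / 3 : ℝ) ^ d * (3 / 4 : ℝ) ^ d = 1 := by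
        rw [← mul_pow]; norm_num
      calc (M : ℝ) * (3 / 4 : ℝ) ^ d < (4 / 3 : ℝ) ^ d * (3 / 4 : ℝ) ^ d :=
            mul_lt_mul_of_pos_right hcon (by positivity)
        _ = 1 := e
    have h7 : (0 : ℝ) < 8 ^ (Fintype.card V) := by positivity
    have h8 : (8 : ℝ) ^ (Fintype.card V) ≤ 8 ^ (Fintype.card V) * (M * (3 / 4 : ℝ) ^ d) := by
      calc (8 : ℝ) ^ (Fintype.card V) ≤ M * ((8 : ℝ) ^ (Fintype.card V) * (3 / 4 : ℝ) ^ d) :=
            h1.trans (h4.trans h5)
        _ = _ := by ring
    have h9 : (8 : ℝ) ^ (Fintype.card V) * (M * (3 / 4 : ℝ) ^ d) < 8 ^ (Fintype.card V) * 1 :=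
      mul_lt_mul_of_pos_left h6 h7
    linarith
  obtain ⟨ρ, hρ⟩ := hex
  obtain ⟨θ', hθ1, hθ2⟩ := exists_strict_threshold
    (fun x => ∑ j, c j * (if conjF (L j) x = true then (1 : ℝ) else 0)) θ
  set P : (V → Bool) → ℝ := fun y =>
    ∑ j, c j * (if conjF (L j) (rest ρ y) = true then (1 : ℝ) else 0) - θ' with hP
  have hPdeg : P ∈ degLE V (d - 1) := by
    have e : P = (∑ j, c j • (fun y : V → Bool => if conjF (L j) (rest ρ y) = true then (1 : ℝ) else 0))
        + (fun _ => -θ') := by
      funext y
      simp only [hP, Pi.add_apply, Finset.sum_apply, Pi.smul_apply, smul_eq_mul]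
      ring
    rw [e]
    refine Submodule.add_mem _ (Submodule.sum_mem _ fun j _ => ?_) ?_
    · refine Submodule.smul_mem _ _ ?_
      by_cases hj : j ∈ bad
      · have hz : (fun y : V → Bool => if conjF (L j) (rest ρ y) = true then (1 : ℝ) else 0) = 0 := by
          funext y
          rw [if_neg]
          · rfl
          · intro hy
            apply hρ j hj
            unfold alive
            rw [mem_filter]
            exact ⟨mem_univ _, y, hy⟩
        rw [hz]
        exact Submodule.zero_mem _
      · apply Submodule.subset_span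
        refine ⟨touch (L j), ?_, isJunta_conj (L j) ρ⟩
        rw [hbad, mem_filter, not_and, not_le] at hj
        have := hj (mem_univ _)
        omega
    · apply Submodule.subset_span
      exact ⟨∅, by simp, fun _ _ _ => rfl⟩
  have hPs : SignRep P F := by
    intro y
    have h1 := hf (rest ρ y)
    rw [comp_gadF_rest] at h1
    constructor
    · intro hy
      rw [hy] at h1
      have h2 := of_decide_eq_true h1.symm
      have := hθ1 _ h2
      simp only [hP]
      linarith
    · intro hy
      rw [hy] at h1
      have h2 := of_decide_eq_false h1.symm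
      push Not at h2
      have := hθ2 _ h2
      simp only [hP]
      linarith
  have := hF (d - 1) P hPdeg hPs
  omega

end restrict

end Pool.Agent.H53.SD
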