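import Pool.Agent.H53.SD.Sens

/-!
Real functions of bounded degree on the Boolean cube, in terms of juntas and monomials, and the
averaging operator attached to the code gadget.
-/

set_option autoImplicit false

namespace Pool.Agent.H53.SD

open Finset

/-- `h` only depends on the coordinates in `S` -/
def IsJunta {V : Type*} (S : Finset V) (h : (V → Bool) → ℝ) : Prop :=
  ∀ x y, (∀ v ∈ S, x v = y v) → h x = h y

/-- functions of degree at most `D` -/
def degLE (V : Type*) (D : ℕ) : Submodule ℝ ((V → Bool) → ℝ) :=
  Submodule.span ℝ {h | ∃ S : Finset V, S.card ≤ D ∧ IsJunta S h}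

/-- `P` strictly sign-represents `f` -/
def SignRep {V : Type*} (P : (V → Bool) → ℝ) (f : (V → Bool) → Bool) : Prop :=
  ∀ x, (f x = true → 0 < P x) ∧ (f x = false → P x < 0)

/-- the monomial attached to `R` -/
def mon {V : Type*} (R : Finset V) : (V → Bool) → ℝ := fun x => ∏ v ∈ R, if x v then 1 else 0

section juntas

variable {V : Type*} [DecidableEq V]

lemma mon_insert {R : Finset V} (a : V) (x : V → Bool) :
    (if x a then (1 : ℝ) else 0) * mon R x = mon (insert a R) x := by
  unfold mon
  by_cases h : a ∈ R
  · rw [insert_eq_of_mem h, ← mul_prod_erase R _ h]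
    split_ifs <;> simp
  · rw [prod_insert h]

lemma mul_mem_span_mon {S : Finset V} (a : V) {h : (V → Bool) → ℝ}
    (hh : h ∈ Submodule.span ℝ (mon '' {R : Finset V | R ⊆ S})) :
    (fun x => (if x a then (1 : ℝ) else 0) * h x) ∈
      Submodule.span ℝ (mon '' {R : Finset V | R ⊆ insert a S}) := by
  induction hh using Submodule.span_induction with
  | mem h hmem =>
    obtain ⟨R, hR, rfl⟩ := hmem
    apply Submodule.subset_span
    refine ⟨insert a R, insert_subset_insert a hR, ?_⟩
    funext x
    rw [mon_insert]
  | zero =>
    have : (fun x : V → Bool => (if x a then (1 : ℝ) else 0) * (0 : (V → Bool) → ℝ) x) = 0 := by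
      funext x; simp
    rw [this]
    exact Submodule.zero_mem _
  | add h1 h2 _ _ ih1 ih2 =>
    have := Submodule.add_mem _ ih1 ih2
    convert this using 1
    funext x
    simp only [Pi.add_apply]
    ring
  | smul c h _ ih =>
    have := Submodule.smul_mem _ c ih
    convert this using 1
    funext x
    simp only [Pi.smul_apply, smul_eq_mul]
    ring

lemma junta_mem_span_mon (S : Finset V) : ∀ (h : (V → Bool) → ℝ), IsJunta S h →
    h ∈ Submodule.span ℝ (mon '' {R : Finset V | R ⊆ S}) := by
  induction S using Finset.induction_on with
  | empty =>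
    intro h hh
    have : h = (h fun _ => false) • mon (∅ : Finset V) := by
      funext x
      simp only [mon, prod_empty, Pi.smul_apply, smul_eq_mul, mul_one]
      exact hh _ _ (by simp)
    rw [this]
    exact Submodule.smul_mem _ _ (Submodule.subset_span ⟨∅, by simp, rfl⟩)
  | insert a S ha ih =>
    intro h hh
    set h0 : (V → Bool) → ℝ := fun x => h (Function.update x a false) with hh0
    set h1 : (V → Bool) → ℝ := fun x => h (Function.update x a true) with hh1
    have j0 : IsJunta S h0 := by
      intro x y hxy
      refine hh _ _ fun v hv => ?_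
      by_cases hva : v = a
      · subst hva; simp
      · rw [Function.update_of_ne hva, Function.update_of_ne hva]
        exact hxy v ((mem_insert.1 hv).resolve_left hva)
    have j1 : IsJunta S h1 := by
      intro x y hxy
      refine hh _ _ fun v hv => ?_
      by_cases hva : v = a
      · subst hva; simp
      · rw [Function.update_of_ne hva, Function.update_of_ne hva]
        exact hxy v ((mem_insert.1 hv).resolve_left hva)
    have e : h = h0 + fun x => (if x a then (1 : ℝ) else 0) * (h1 - h0) x := by
      funext x
      simp only [Pi.add_apply, Pi.sub_apply, hh0, hh1]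
      cases hxa : x a
      · have : Function.update x a false = x := by rw [← hxa]; exact Function.update_eq_self a x
        simp [this]
      · have : Function.update x a true = x := by rw [← hxa]; exact Function.update_eq_self a x
        simp [this]
    have m0 := ih h0 j0
    have m1 := Submodule.sub_mem _ (ih h1 j1) m0
    rw [e]
    refine Submodule.add_mem _ ?_ (mul_mem_span_mon a m1)
    refine Submodule.span_mono (Set.image_mono ?_) m0
    intro R hR
    exact hR.trans (subset_insert a S)

lemma degLE_le_span_mon (D : ℕ) :
    degLE V D ≤ Submodule.span ℝ (mon '' {R : Finset V | R.card ≤ D}) := by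
  unfold degLE
  rw [Submodule.span_le]
  rintro h ⟨S, hS, hh⟩
  refine Submodule.span_mono (Set.image_mono ?_) (junta_mem_span_mon S h hh)
  intro R hR
  exact (card_le_card hR).trans hS

lemma isJunta_of_flip [Fintype V] (S : Finset V) (h : (V → Bool) → ℝ)
    (hf : ∀ x, ∀ v ∉ S, h (flip x v) = h x) : IsJunta S h := by
  -- induction on the set of differing coordinates
  have key : ∀ (E : Finset V) (x y : V → Bool), (∀ v, x v ≠ y v ↔ v ∈ E) → (∀ v ∈ E, v ∉ S) →
      h x = h y := by
    intro E
    induction E using Finset.induction_on with
    | empty =>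
      intro x y hE _
      have : x = y := by
        funext v
        by_contra hne
        exact absurd ((hE v).1 hne) (by simp)
      rw [this]
    | insert a E ha ih =>
      intro x y hE hS
      have hxa : x a ≠ y a := (hE a).2 (mem_insert_self a E)
      rw [← hf x a (hS a (mem_insert_self a E))]
      refine ih _ _ (fun v => ?_) (fun v hv => hS v (mem_insert_of_mem hv))
      by_cases hva : v = a
      · subst hva
        rw [flip_same]
        constructor
        · intro hne
          exfalso
          revert hne hxa
          cases x v <;> cases y v <;> simp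
        · intro hv
          exact absurd hv ha
      · rw [flip_ne _ hva, hE v, mem_insert]
        exact ⟨fun h => h.resolve_left hva, Or.inr⟩
  intro x y hxy
  refine key (univ.filter fun v => x v ≠ y v) x y (fun v => by simp) (fun v hv hvS => ?_)
  rw [mem_filter] at hv
  exact hv.2 (hxy v hvS)

end juntas

section codeavg

variable {I K T : Type*} [Fintype I] [DecidableEq I] [Fintype K] [DecidableEq K]
  [Fintype T] [DecidableEq T]

/-- duplicate the data `w` into both copies of the code gadget -/
def dup (w : I × K → T → Bool) : I × (K × (Bool × T)) → Bool := fun q => w (q.1, q.2.1) q.2.2.2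

/-- parity pattern -/
def pat (w : I × K → T → Bool) : I × K → Bool := fun c => decide (parZ (w c) = 1)

/-- sum of `P` over all duplicated inputs with parity pattern `u` -/
noncomputable def avgCode (P : (I × (K × (Bool × T)) → Bool) → ℝ) : (I × K → Bool) → ℝ :=
  fun u => ∑ w : I × K → T → Bool, if pat w = u then P (dup w) else 0

lemma avgCode_add (P Q : (I × (K × (Bool × T)) → Bool) → ℝ) :
    avgCode (P + Q) = avgCode P + avgCode Q := by
  funext u
  simp only [avgCode, Pi.add_apply, ← sum_add_distrib]
  refine sum_congr rfl fun w _ => ?_
  split_ifs <;> simp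

lemma avgCode_smul (c : ℝ) (P : (I × (K × (Bool × T)) → Bool) → ℝ) :
    avgCode (c • P) = c • avgCode P := by
  funext u
  simp only [avgCode, Pi.smul_apply, smul_eq_mul, mul_sum]
  refine sum_congr rfl fun w _ => ?_
  split_ifs <;> simp

/-- change the data at cell `c` by flipping the bit `v` -/
def moveAt (c : I × K) (v : T) (w : I × K → T → Bool) : I × K → T → Bool :=
  Function.update w c (flip (w c) v)

lemma moveAt_moveAt (c : I × K) (v : T) (w : I × K → T → Bool) :
    moveAt c v (moveAt c v w) = w := by
  unfold moveAt
  funext d
  by_cases h : d = c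
  · subst h
    rw [Function.update_self, Function.update_self]
    funext u
    by_cases hu : u = v
    · subst hu; simp
    · rw [flip_ne _ hu, flip_ne _ hu]
  · rw [Function.update_of_ne h, Function.update_of_ne h]

lemma pat_moveAt (c : I × K) (v : T) (w : I × K → T → Bool) :
    pat (moveAt c v w) = flip (pat w) c := by
  funext d
  by_cases h : d = c
  · subst h
    rw [flip_same]
    unfold pat moveAt
    rw [Function.update_self, parZ_flip]
    have : ∀ a : ZMod 2, decide (a + 1 = 1) = !decide (a = 1) := by decide
    exact this _
  · rw [flip_ne _ h]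
    unfold pat moveAt
    rw [Function.update_of_ne h]

lemma avgCode_flip (P : (I × (K × (Bool × T)) → Bool) → ℝ) (S : Finset (I × (K × (Bool × T))))
    (hP : IsJunta S P) (c : I × K) (v : T) (hv : ∀ b : Bool, (c.1, (c.2, (b, v))) ∉ S)
    (u : I × K → Bool) : avgCode P (flip u c) = avgCode P u := by
  unfold avgCode
  refine Fintype.sum_equiv ⟨moveAt c v, moveAt c v, moveAt_moveAt c v, moveAt_moveAt c v⟩ _ _ ?_
  intro w
  simp only [Equiv.coe_fn_mk]
  rw [pat_moveAt]
  have h1 : (pat w = flip u c) ↔ (flip (pat w) c = u) := by
    constructor
    · intro h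
      rw [h]
      funext d
      by_cases hd : d = c
      · subst hd; simp
      · rw [flip_ne _ hd, flip_ne _ hd]
    · intro h
      rw [← h]
      funext d
      by_cases hd : d = c
      · subst hd; simp
      · rw [flip_ne _ hd, flip_ne _ hd]
  have h2 : P (dup w) = P (dup (moveAt c v w)) := by
    refine hP _ _ ?_
    rintro ⟨i, l, b, a⟩ hq
    unfold dup moveAt
    simp only
    by_cases hc : (i, l) = c
    · subst hc
      rw [Function.update_self]
      by_cases ha : a = v
      · subst ha
        exact absurd hq (hv b)
      · rw [flip_ne _ ha]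
    · rw [Function.update_of_ne hc]
  rw [h2]
  by_cases h : pat w = flip u c
  · rw [if_pos h, if_pos (h1.1 h)]
  · rw [if_neg h, if_neg (fun h' => h (h1.2 h'))]

lemma avgCode_mem_degLE [Nonempty T] {D : ℕ} {P : (I × (K × (Bool × T)) → Bool) → ℝ}
    (hP : P ∈ degLE (I × (K × (Bool × T))) D) :
    avgCode P ∈ degLE (I × K) (D / Fintype.card T) := by
  induction hP using Submodule.span_induction with
  | mem P hmem =>
    obtain ⟨S, hS, hJ⟩ := hmem
    apply Submodule.subset_span
    set t := Fintype.card T with ht
    have htpos : 0 < t := Fintype.card_pos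
    set H : Finset (I × K) := univ.filter
      (fun c => t ≤ (S.filter (fun q => (q.1, q.2.1) = c)).card) with hH
    refine ⟨H, ?_, ?_⟩
    · rw [Nat.le_div_iff_mul_le htpos]
      calc H.card * t = ∑ _c ∈ H, t := by simp
        _ ≤ ∑ c ∈ H, (S.filter (fun q => (q.1, q.2.1) = c)).card :=
            sum_le_sum fun c hc => (mem_filter.1 hc).2
        _ ≤ ∑ c : I × K, (S.filter (fun q => (q.1, q.2.1) = c)).card :=
            sum_le_sum_of_subset (subset_univ _)
        _ = S.card := by
            rw [card_eq_sum_card_fiberwise (f := fun q => (q.1, q.2.1)) (t := univ)]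
            intro q _
            simp
        _ ≤ D := hS
    · refine isJunta_of_flip H _ fun u c hc => ?_
      rw [hH, mem_filter, not_and] at hc
      have hc' := hc (mem_univ _)
      rw [not_le] at hc'
      -- find an uncovered position
      obtain ⟨v, hv⟩ : ∃ v : T, ∀ b : Bool, (c.1, (c.2, (b, v))) ∉ S := by
        by_contra hcon
        push Not at hcon
        choose b hb using hcon
        have : t ≤ (S.filter (fun q => (q.1, q.2.1) = c)).card := by
          rw [ht, ← card_univ]
          refine card_le_card_of_injOn (fun v => (c.1, (c.2, (b v, v)))) ?_ ?_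
          · intro v _
            simp [hb v]
          · intro v _ v' _ h
            simpa using (congrArg (fun q => q.2.2.2) h)
        omega
      exact avgCode_flip P S hJ c v hv u
  | zero =>
    have : avgCode (0 : (I × (K × (Bool × T)) → Bool) → ℝ) = 0 := by
      funext u; simp [avgCode]
    rw [this]
    exact Submodule.zero_mem _
  | add P Q _ _ ih1 ih2 =>
    rw [avgCode_add]
    exact Submodule.add_mem _ ih1 ih2
  | smul c P _ ih =>
    rw [avgCode_smul]
    exact Submodule.smul_mem _ c ih

lemma exists_pat [Nonempty T] (u : I × K → Bool) : ∃ w : I × K → T → Bool, pat w = u := by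
  obtain ⟨v⟩ := (inferInstance : Nonempty T)
  refine ⟨fun c a => if a = v then u c else false, ?_⟩
  funext c
  unfold pat parZ
  have : (∑ a : T, if (if a = v then u c else false) = true then (1 : ZMod 2) else 0)
      = if u c then 1 else 0 := by
    rw [Finset.sum_eq_single v]
    · simp
    · intro a _ ha
      simp [ha]
    · simp
  rw [this]
  cases u c <;> simp

lemma avgCode_signRep [Nonempty T] {P : (I × (K × (Bool × T)) → Bool) → ℝ}
    {Φ : (I → Bool) → Bool}
    (hP : SignRep P (comp Φ (comp (norF (K := K)) (codeF (T := T))))) :
    SignRep (avgCode P) (comp Φ (norF (K := K))) := by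
  have hval : ∀ w : I × K → T → Bool,
      comp Φ (comp (norF (K := K)) (codeF (T := T))) (dup w) = comp Φ (norF (K := K)) (pat w) := by
    intro w
    unfold comp dup pat
    congr 1
    funext i
    congr 1
    funext l
    exact codeF_dup (w (i, l))
  intro u
  constructor
  · intro hu
    unfold avgCode
    refine sum_pos' (fun w _ => ?_) ?_
    · split_ifs with h
      · exact ((hP (dup w)).1 (by rw [hval, h, hu])).le
      · exact le_rfl
    · obtain ⟨w, hw⟩ := exists_pat (T := T) u
      refine ⟨w, mem_univ _, ?_⟩
      rw [if_pos hw]
      exact (hP (dup w)).1 (by rw [hval, hw, hu])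
  · intro hu
    unfold avgCode
    rw [← neg_pos, ← sum_neg_distrib]
    refine sum_pos' (fun w _ => ?_) ?_
    · split_ifs with h
      · exact (neg_pos.2 ((hP (dup w)).2 (by rw [hval, h, hu]))).le
      · simp
    · obtain ⟨w, hw⟩ := exists_pat (T := T) u
      refine ⟨w, mem_univ _, ?_⟩
      rw [if_pos hw]
      exact neg_pos.2 ((hP (dup w)).2 (by rw [hval, hw, hu]))

end codeavg

end Pool.Agent.H53.SD
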