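import Pool.Agent.H53.SD.Deg

/-!
Gordan duality for sign degree: a function without sign representation of degree `≤ D` carries a
probability weight making it orthogonal to all functions of degree `≤ D`.
-/

set_option autoImplicit false

namespace Pool.Agent.H53.SD

open Finset

/-- the sign attached to a bit -/
def sg (b : Bool) : ℝ := if b then 1 else -1

lemma sg_mul_self (b : Bool) : sg b * sg b = 1 := by cases b <;> simp [sg]

lemma abs_sg (b : Bool) : |sg b| = 1 := by cases b <;> simp [sg]

section dual

variable {V : Type*} [Fintype V] [DecidableEq V]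

lemma isJunta_mon (R : Finset V) : IsJunta R (mon R) := by
  intro x y hxy
  unfold mon
  refine prod_congr rfl fun v hv => ?_
  rw [hxy v hv]

theorem exists_dual (F : (V → Bool) → Bool) (D : ℕ)
    (hF : ∀ P ∈ degLE V D, ¬ SignRep P F) :
    ∃ w : (V → Bool) → ℝ, (∀ x, 0 ≤ w x) ∧ ∑ x, w x = 1 ∧
      ∀ h ∈ degLE V D, ∑ x, w x * sg (F x) * h x = 0 := by
  classical
  let κ := {S : Finset V // S.card ≤ D}
  let φ : (V → Bool) → κ → ℝ := fun x S => sg (F x) * mon S.1 x
  by_cases h0 : (0 : κ → ℝ) ∈ convexHull ℝ (Set.range φ)
  · rw [mem_convexHull_iff_exists_fintype] at h0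
    obtain ⟨ι, hι, w, z, hw0, hw1, hz, hsum⟩ := h0
    choose y hy using hz
    refine ⟨fun x => ∑ i, if y i = x then w i else 0, fun x => ?_, ?_, ?_⟩
    · refine sum_nonneg fun i _ => ?_
      split_ifs
      · exact hw0 i
      · exact le_rfl
    · rw [sum_comm]
      rw [← hw1]
      refine sum_congr rfl fun i _ => ?_
      rw [sum_ite_eq]
      simp
    · have hmon : ∀ R : Finset V, R.card ≤ D →
          ∑ x, (∑ i, if y i = x then w i else 0) * sg (F x) * mon R x = 0 := by
        intro R hR
        have h1 := congrFun hsum ⟨R, hR⟩
        simp only [Finset.sum_apply, Pi.smul_apply, smul_eq_mul, Pi.zero_apply] at h1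
        refine Eq.trans ?_ h1
        simp only [sum_mul]
        rw [sum_comm]
        refine sum_congr rfl fun i _ => ?_
        rw [Finset.sum_eq_single (y i)]
        · rw [if_pos rfl, ← hy i]
          simp only [φ]
          ring
        · intro x _ hx
          rw [if_neg (Ne.symm hx)]
          ring
        · intro h; exact absurd (mem_univ _) h
      intro h hh
      have hh' := degLE_le_span_mon D hh
      clear hh
      induction hh' using Submodule.span_induction with
      | mem h hmem =>
        obtain ⟨R, hR, rfl⟩ := hmem
        exact hmon R hR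
      | zero => simp
      | add h g _ _ ih1 ih2 =>
        simp only [Pi.add_apply, mul_add, sum_add_distrib]
        rw [ih1, ih2, add_zero]
      | smul c h _ ih =>
        simp only [Pi.smul_apply, smul_eq_mul]
        have : ∀ x, (∑ i, if y i = x then w i else 0) * sg (F x) * (c * h x)
            = c * ((∑ i, if y i = x then w i else 0) * sg (F x) * h x) := fun x => by ring
        simp only [this]
        rw [← mul_sum, ih, mul_zero]
  · exfalso
    have hcl : IsClosed (convexHull ℝ (Set.range φ)) := Set.Finite.isClosed_convexHull (𝕜 := ℝ) (Set.finite_range φ)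
    obtain ⟨f, u, hu, hf⟩ := geometric_hahn_banach_point_closed (convex_convexHull ℝ _) hcl h0
    rw [map_zero] at hu
    set P : (V → Bool) → ℝ := ∑ S : κ, f (Pi.single S 1) • mon S.1 with hP
    have hPd : P ∈ degLE V D := by
      refine Submodule.sum_mem _ fun S _ => Submodule.smul_mem _ _ (Submodule.subset_span ?_)
      exact ⟨S.1, S.2, isJunta_mon S.1⟩
    have hval : ∀ x, sg (F x) * P x = f (φ x) := by
      intro x
      have e : φ x = ∑ S : κ, (φ x S) • (Pi.single S (1 : ℝ) : κ → ℝ) := by
        funext T
        rw [Finset.sum_apply, Finset.sum_eq_single T]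
        · simp
        · intro S _ hS
          simp [Pi.single_apply, Ne.symm hS]
        · intro h; exact absurd (mem_univ _) h
      rw [e, map_sum, hP, Finset.sum_apply, mul_sum]
      refine sum_congr rfl fun S _ => ?_
      rw [map_smul]
      simp only [Pi.smul_apply, smul_eq_mul, φ]
      ring
    apply hF P hPd
    intro x
    have h1 : 0 < sg (F x) * P x := by
      rw [hval x]
      exact hu.trans (hf _ (subset_convexHull ℝ _ ⟨x, rfl⟩))
    constructor
    · intro hx
      rw [hx] at h1
      simpa [sg] using h1
    · intro hx
      rw [hx] at h1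
      have : 0 < - P x := by simpa [sg] using h1
      linarith

end dual

end Pool.Agent.H53.SD
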