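import Pool.Agent.H53.SD.Dual

/-!
Characters of the cube, and the discrepancy bound for the pattern gadget.
-/

set_option autoImplicit false

namespace Pool.Agent.H53.SD

open Finset

/-- character value of a bit -/
def cs (b : Bool) : ℝ := if b then -1 else 1

lemma cs_mul_self (b : Bool) : cs b * cs b = 1 := by cases b <;> simp [cs]

lemma cs_xor (a b : Bool) : cs (xor a b) = cs a * cs b := by cases a <;> cases b <;> simp [cs]

lemma abs_cs (b : Bool) : |cs b| = 1 := by cases b <;> simp [cs]

/-- characters -/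
def chi {V : Type*} (S : Finset V) (x : V → Bool) : ℝ := ∏ v ∈ S, cs (x v)

section fourier

variable {V : Type*} [Fintype V] [DecidableEq V]

lemma isJunta_chi (S : Finset V) : IsJunta S (chi S) := by
  intro x y hxy
  unfold chi
  refine prod_congr rfl fun v hv => ?_
  rw [hxy v hv]

lemma abs_chi (S : Finset V) (x : V → Bool) : |chi S x| = 1 := by
  unfold chi
  rw [abs_prod]
  exact prod_eq_one fun v _ => abs_cs _

lemma sum_chi_mul_chi (x y : V → Bool) :
    ∑ S : Finset V, chi S x * chi S y = if x = y then (2 : ℝ) ^ (Fintype.card V) else 0 := by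
  have h1 : ∀ S : Finset V, chi S x * chi S y = ∏ v ∈ S, (cs (x v) * cs (y v)) := by
    intro S
    unfold chi
    rw [prod_mul_distrib]
  have h2 : ∑ S : Finset V, ∏ v ∈ S, (cs (x v) * cs (y v))
      = ∏ v : V, (cs (x v) * cs (y v) + 1) := by
    rw [prod_add_one]
    rw [powerset_univ]
  simp only [h1]
  rw [h2]
  split_ifs with h
  · subst h
    rw [prod_congr rfl (fun v _ => by rw [cs_mul_self])]
    rw [prod_const, card_univ]
    norm_num
  · obtain ⟨v, hv⟩ : ∃ v, x v ≠ y v := by
      by_contra hcon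
      push Not at hcon
      exact h (funext hcon)
    refine prod_eq_zero (mem_univ v) ?_
    revert hv
    cases x v <;> cases y v <;> simp [cs]

/-- Fourier inversion -/
lemma fourier_inversion (ψ : (V → Bool) → ℝ) (z : V → Bool) :
    (2 : ℝ) ^ (Fintype.card V) * ψ z = ∑ S : Finset V, (∑ y, ψ y * chi S y) * chi S z := by
  have : ∑ S : Finset V, (∑ y, ψ y * chi S y) * chi S z
      = ∑ y, ψ y * ∑ S : Finset V, chi S y * chi S z := by
    simp only [sum_mul, mul_sum]
    rw [sum_comm]
    refine sum_congr rfl fun y _ => sum_congr rfl fun S _ => ?_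
    ring
  rw [this]
  simp only [sum_chi_mul_chi]
  rw [Finset.sum_eq_single z]
  · rw [if_pos rfl]; ring
  · intro y _ hy
    rw [if_neg hy, mul_zero]
  · intro h; exact absurd (mem_univ _) h

/-- Parseval -/
lemma parseval (α : (V → Bool) → ℝ) :
    ∑ S : Finset V, (∑ x, α x * chi S x) ^ 2 = (2 : ℝ) ^ (Fintype.card V) * ∑ x, α x ^ 2 := by
  have h1 : ∀ S : Finset V, (∑ x, α x * chi S x) ^ 2
      = ∑ x, α x * ((∑ y, α y * chi S y) * chi S x) := by
    intro S
    rw [sq, sum_mul]
    refine sum_congr rfl fun x _ => ?_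
    ring
  simp only [h1]
  rw [sum_comm, mul_sum]
  refine sum_congr rfl fun x _ => ?_
  rw [← mul_sum, ← fourier_inversion]
  ring

end fourier

section pattern

variable {V : Type*} [Fintype V] [DecidableEq V]

/-- the word read by the pattern gadget -/
def zOf (X : V × Bool → Bool) (Y : (V → Bool) × (V → Bool)) : V → Bool :=
  fun v => xor (X (v, Y.1 v)) (Y.2 v)

/-- the graph of `b` over `S` -/
def graph (S : Finset V) (b : V → Bool) : Finset (V × Bool) := S.image (fun v => (v, b v))

lemma mem_graph (S : Finset V) (b : V → Bool) (v : V) (c : Bool) :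
    (v, c) ∈ graph S b ↔ v ∈ S ∧ b v = c := by
  unfold graph
  rw [mem_image]
  constructor
  · rintro ⟨u, hu, h⟩
    have h1 : u = v := congrArg Prod.fst h
    subst h1
    exact ⟨hu, congrArg Prod.snd h⟩
  · rintro ⟨hv, h⟩
    exact ⟨v, hv, by rw [h]⟩

lemma image_fst_graph (S : Finset V) (b : V → Bool) : (graph S b).image Prod.fst = S := by
  ext v
  rw [mem_image]
  constructor
  · rintro ⟨⟨u, c⟩, h, rfl⟩
    exact ((mem_graph S b u c).1 h).1
  · intro hv
    exact ⟨(v, b v), (mem_graph S b v (b v)).2 ⟨hv, rfl⟩, rfl⟩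

lemma chi_zOf (S : Finset V) (X : V × Bool → Bool) (Y : (V → Bool) × (V → Bool)) :
    chi S (zOf X Y) = chi (graph S Y.1) X * chi S Y.2 := by
  unfold chi zOf graph
  rw [prod_image]
  · rw [← prod_mul_distrib]
    refine prod_congr rfl fun v _ => ?_
    rw [cs_xor]
  · intro v _ u _ h
    exact congrArg Prod.fst h

/-- every set `T` is the graph of few pairs `(b, S)` with `|S| ≥ d` -/
lemma sum_graph_le (d : ℕ) (g : Finset (V × Bool) → ℝ) (hg : ∀ T, 0 ≤ g T) :
    (2 : ℝ) ^ d * ∑ b : V → Bool, ∑ S ∈ univ.filter (fun S : Finset V => d ≤ S.card),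
      g (graph S b) ≤ 2 ^ (Fintype.card V) * ∑ T, g T := by
  -- regroup by `T`
  have h1 : ∀ b : V → Bool, ∑ S ∈ univ.filter (fun S : Finset V => d ≤ S.card), g (graph S b)
      = ∑ T : Finset (V × Bool),
        if (d ≤ (T.image Prod.fst).card ∧ graph (T.image Prod.fst) b = T) then g T else 0 := by
    intro b
    rw [← sum_filter]
    refine sum_nbij' (fun S => graph S b) (fun T => T.image Prod.fst) ?_ ?_ ?_ ?_ ?_
    · intro S hS
      rw [mem_filter] at hS ⊢
      exact ⟨mem_univ _, by rw [image_fst_graph]; exact hS.2, by rw [image_fst_graph]⟩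
    · intro T hT
      rw [mem_filter] at hT ⊢
      exact ⟨mem_univ _, hT.2.1⟩
    · intro S _
      exact image_fst_graph S b
    · intro T hT
      exact (mem_filter.1 hT).2.2
    · intro S _
      rfl
  simp only [h1]
  rw [sum_comm, mul_sum, mul_sum]
  refine sum_le_sum fun T _ => ?_
  by_cases hT : d ≤ (T.image Prod.fst).card
  · have h2 : ∑ b : V → Bool,
        (if (d ≤ (T.image Prod.fst).card ∧ graph (T.image Prod.fst) b = T) then g T else 0)
        = ((univ.filter (fun b : V → Bool => graph (T.image Prod.fst) b = T)).card : ℝ) * g T := by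
      rw [← sum_filter]
      have : (univ.filter (fun b : V → Bool =>
          d ≤ (T.image Prod.fst).card ∧ graph (T.image Prod.fst) b = T))
          = univ.filter (fun b : V → Bool => graph (T.image Prod.fst) b = T) := by
        ext b
        simp [hT]
      rw [this, sum_const, nsmul_eq_mul]
    rw [h2, ← mul_assoc]
    refine mul_le_mul_of_nonneg_right ?_ (hg T)
    -- count the functions `b`
    set S := T.image Prod.fst with hS
    by_cases hne : (univ.filter (fun b : V → Bool => graph S b = T)).Nonempty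
    · obtain ⟨b0, hb0⟩ := hne
      rw [mem_filter] at hb0
      have hsub : univ.filter (fun b : V → Bool => graph S b = T)
          ⊆ Fintype.piFinset (fun v => if v ∈ S then {b0 v} else (univ : Finset Bool)) := by
        intro b hb
        rw [mem_filter] at hb
        rw [Fintype.mem_piFinset]
        intro v
        split_ifs with hv
        · rw [mem_singleton]
          have : (v, b0 v) ∈ graph S b := by
            rw [hb.2, ← hb0.2]
            exact (mem_graph S b0 v (b0 v)).2 ⟨hv, rfl⟩
          exact ((mem_graph S b v (b0 v)).1 this).2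
        · exact mem_univ _
      have hcard : ((Fintype.piFinset
          (fun v => if v ∈ S then {b0 v} else (univ : Finset Bool))).card : ℝ) * 2 ^ S.card
          = 2 ^ (Fintype.card V) := by
        rw [Fintype.card_piFinset]
        push_cast
        have e : (2 : ℝ) ^ S.card = ∏ v : V, (if v ∈ S then (2 : ℝ) else 1) := by
          rw [Finset.prod_ite_mem, univ_inter, prod_const]
        rw [e, ← prod_mul_distrib]
        have e2 : (2 : ℝ) ^ (Fintype.card V) = ∏ _v : V, (2 : ℝ) := by
          rw [prod_const, card_univ]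
        rw [e2]
        refine prod_congr rfl fun v _ => ?_
        split_ifs <;> simp
      have h3 : ((univ.filter (fun b : V → Bool => graph S b = T)).card : ℝ)
          ≤ ((Fintype.piFinset
          (fun v => if v ∈ S then {b0 v} else (univ : Finset Bool))).card : ℝ) := by
        exact_mod_cast card_le_card hsub
      calc (2 : ℝ) ^ d * ((univ.filter (fun b : V → Bool => graph S b = T)).card : ℝ)
          ≤ 2 ^ S.card * ((Fintype.piFinset
          (fun v => if v ∈ S then {b0 v} else (univ : Finset Bool))).card : ℝ) :=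
            mul_le_mul (pow_le_pow_right₀ (by norm_num) hT) h3 (by positivity) (by positivity)
        _ = 2 ^ (Fintype.card V) := by rw [mul_comm]; exact hcard
    · rw [not_nonempty_iff_eq_empty] at hne
      rw [hne]
      simp
  · have h2 : ∑ b : V → Bool,
        (if (d ≤ (T.image Prod.fst).card ∧ graph (T.image Prod.fst) b = T) then g T else 0) = 0 := by
      refine sum_eq_zero fun b _ => ?_
      rw [if_neg]
      intro h
      exact hT h.1
    rw [h2, mul_zero]
    exact mul_nonneg (by positivity) (hg T)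

/-- **Pattern discrepancy.** If `ψ` has total mass at most `1` and is orthogonal to all characters
of order `< d`, then its composition with the pattern gadget has small correlation with all
bounded product functions. -/
theorem pattern_discrepancy (ψ : (V → Bool) → ℝ) (hψ : ∑ z, |ψ z| ≤ 1) (d : ℕ)
    (horth : ∀ S : Finset V, S.card < d → ∑ z, ψ z * chi S z = 0)
    (α : (V × Bool → Bool) → ℝ) (β : (V → Bool) × (V → Bool) → ℝ)
    (hα : ∀ X, |α X| ≤ 1) (hβ : ∀ Y, |β Y| ≤ 1) :
    (2 : ℝ) ^ d * (∑ X, ∑ Y, ψ (zOf X Y) * α X * β Y) ^ 2 ≤ 2 ^ (6 * Fintype.card V) := by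
  set N := Fintype.card V with hN
  set c : Finset V → ℝ := fun S => ∑ z, ψ z * chi S z with hc
  set α' : Finset (V × Bool) → ℝ := fun T => ∑ X, α X * chi T X with hα'
  set β' : (V → Bool) → Finset V → ℝ := fun b S => ∑ e, β (b, e) * chi S e with hβ'
  have hcb : ∀ S, |c S| ≤ 1 := by
    intro S
    refine (abs_sum_le_sum_abs _ _).trans ?_
    refine le_trans (le_of_eq ?_) hψ
    refine sum_congr rfl fun z _ => ?_
    rw [abs_mul, abs_chi, mul_one]
  -- expand
  have hexp : (2 : ℝ) ^ N * (∑ X, ∑ Y, ψ (zOf X Y) * α X * β Y)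
      = ∑ b : V → Bool, ∑ S ∈ univ.filter (fun S : Finset V => d ≤ S.card),
        (c S * β' b S) * α' (graph S b) := by
    have e1 : (2 : ℝ) ^ N * (∑ X, ∑ Y, ψ (zOf X Y) * α X * β Y)
        = ∑ X, ∑ Y, (∑ S : Finset V, c S * chi S (zOf X Y)) * α X * β Y := by
      rw [mul_sum]
      refine sum_congr rfl fun X _ => ?_
      rw [mul_sum]
      refine sum_congr rfl fun Y _ => ?_
      rw [← fourier_inversion ψ (zOf X Y)]
      ring
    rw [e1]
    have e2 : ∀ X : V × Bool → Bool, ∀ Y : (V → Bool) × (V → Bool),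
        (∑ S : Finset V, c S * chi S (zOf X Y)) * α X * β Y
        = ∑ S ∈ univ.filter (fun S : Finset V => d ≤ S.card),
          c S * (α X * chi (graph S Y.1) X) * (β Y * chi S Y.2) := by
      intro X Y
      rw [sum_mul, sum_mul]
      rw [sum_filter]
      refine sum_congr rfl fun S _ => ?_
      split_ifs with hS
      · rw [chi_zOf]; ring
      · have : c S = 0 := horth S (by omega)
        rw [this]; ring
    simp only [e2]
    -- swap sums
    rw [sum_comm]
    rw [Fintype.sum_prod_type]
    refine sum_congr rfl fun b _ => ?_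
    -- ∑ e, ∑ X, ∑ S = ∑ S, ...
    have e3 : ∀ e : V → Bool, ∑ X : V × Bool → Bool,
        ∑ S ∈ univ.filter (fun S : Finset V => d ≤ S.card),
          c S * (α X * chi (graph S (b, e).1) X) * (β (b, e) * chi S (b, e).2)
        = ∑ S ∈ univ.filter (fun S : Finset V => d ≤ S.card),
          c S * α' (graph S b) * (β (b, e) * chi S e) := by
      intro e
      rw [sum_comm]
      refine sum_congr rfl fun S _ => ?_
      rw [hα']
      simp only
      rw [mul_sum, sum_mul]
    simp only [e3]
    rw [sum_comm]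
    refine sum_congr rfl fun S _ => ?_
    rw [← mul_sum]
    simp only [hβ']
    ring
  -- Cauchy-Schwarz
  have hCS : ((2 : ℝ) ^ N * (∑ X, ∑ Y, ψ (zOf X Y) * α X * β Y)) ^ 2
      ≤ (∑ b : V → Bool, ∑ S ∈ univ.filter (fun S : Finset V => d ≤ S.card), (c S * β' b S) ^ 2)
        * (∑ b : V → Bool, ∑ S ∈ univ.filter (fun S : Finset V => d ≤ S.card),
          (α' (graph S b)) ^ 2) := by
    rw [hexp]
    simp only [← sum_product']
    exact sum_mul_sq_le_sq_mul_sq _ _ _
  -- first factor
  have hF1 : (∑ b : V → Bool, ∑ S ∈ univ.filter (fun S : Finset V => d ≤ S.card),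
      (c S * β' b S) ^ 2) ≤ 2 ^ (3 * N) := by
    have h1 : ∀ b : V → Bool, ∑ S ∈ univ.filter (fun S : Finset V => d ≤ S.card),
        (c S * β' b S) ^ 2 ≤ 2 ^ (2 * N) := by
      intro b
      calc ∑ S ∈ univ.filter (fun S : Finset V => d ≤ S.card), (c S * β' b S) ^ 2
          ≤ ∑ S ∈ univ.filter (fun S : Finset V => d ≤ S.card), (β' b S) ^ 2 := by
            refine sum_le_sum fun S _ => ?_
            rw [mul_pow]
            have : c S ^ 2 ≤ 1 := by
              rw [← sq_abs]
              exact pow_le_one₀ (abs_nonneg _) (hcb S)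
            nlinarith [sq_nonneg (β' b S)]
        _ ≤ ∑ S : Finset V, (β' b S) ^ 2 :=
            sum_le_sum_of_subset_of_nonneg (filter_subset _ _) (fun _ _ _ => sq_nonneg _)
        _ = 2 ^ N * ∑ e, β (b, e) ^ 2 := parseval _
        _ ≤ 2 ^ N * ∑ _e : V → Bool, (1 : ℝ) := by
            refine mul_le_mul_of_nonneg_left (sum_le_sum fun e _ => ?_) (by positivity)
            rw [← sq_abs]
            exact pow_le_one₀ (abs_nonneg _) (hβ _)
        _ = 2 ^ (2 * N) := by
            rw [sum_const, card_univ, Fintype.card_fun, Fintype.card_bool, nsmul_eq_mul, ← hN]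
            push_cast
            ring
    calc _ ≤ ∑ _b : V → Bool, (2 : ℝ) ^ (2 * N) := sum_le_sum fun b _ => h1 b
      _ = 2 ^ (3 * N) := by
          rw [sum_const, card_univ, Fintype.card_fun, Fintype.card_bool, nsmul_eq_mul, ← hN]
          push_cast
          ring
  -- second factor
  have hF2 : (2 : ℝ) ^ d * (∑ b : V → Bool, ∑ S ∈ univ.filter (fun S : Finset V => d ≤ S.card),
          (α' (graph S b)) ^ 2) ≤ 2 ^ (5 * N) := by
    have h1 := sum_graph_le d (fun T => (α' T) ^ 2) (fun T => sq_nonneg _)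
    refine h1.trans ?_
    have h2 : ∑ T : Finset (V × Bool), (α' T) ^ 2
        = 2 ^ (Fintype.card (V × Bool)) * ∑ X, α X ^ 2 := parseval α
    rw [h2]
    have h3 : ∑ X : V × Bool → Bool, α X ^ 2 ≤ 2 ^ (2 * N) := by
      calc ∑ X : V × Bool → Bool, α X ^ 2 ≤ ∑ _X : V × Bool → Bool, (1 : ℝ) := by
            refine sum_le_sum fun X _ => ?_
            rw [← sq_abs]
            exact pow_le_one₀ (abs_nonneg _) (hα _)
        _ = 2 ^ (2 * N) := by
            rw [sum_const, card_univ, Fintype.card_fun, Fintype.card_bool, Fintype.card_prod,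
              Fintype.card_bool, nsmul_eq_mul, ← hN]
            push_cast
            ring
    rw [Fintype.card_prod, Fintype.card_bool, ← hN]
    calc (2 : ℝ) ^ N * (2 ^ (N * 2) * ∑ X, α X ^ 2)
        ≤ 2 ^ N * (2 ^ (N * 2) * 2 ^ (2 * N)) := by
          refine mul_le_mul_of_nonneg_left ?_ (by positivity)
          exact mul_le_mul_of_nonneg_left h3 (by positivity)
      _ = 2 ^ (5 * N) := by ring
  -- combine
  have h4 : (2 : ℝ) ^ (2 * N) * ((2 : ℝ) ^ d * (∑ X, ∑ Y, ψ (zOf X Y) * α X * β Y) ^ 2)
      ≤ 2 ^ (2 * N) * 2 ^ (6 * N) := by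
    calc (2 : ℝ) ^ (2 * N) * ((2 : ℝ) ^ d * (∑ X, ∑ Y, ψ (zOf X Y) * α X * β Y) ^ 2)
        = 2 ^ d * ((2 : ℝ) ^ N * (∑ X, ∑ Y, ψ (zOf X Y) * α X * β Y)) ^ 2 := by ring
      _ ≤ 2 ^ d * ((∑ b : V → Bool, ∑ S ∈ univ.filter (fun S : Finset V => d ≤ S.card),
          (c S * β' b S) ^ 2)
        * (∑ b : V → Bool, ∑ S ∈ univ.filter (fun S : Finset V => d ≤ S.card),
          (α' (graph S b)) ^ 2)) := mul_le_mul_of_nonneg_left hCS (by positivity)
      _ = (∑ b : V → Bool, ∑ S ∈ univ.filter (fun S : Finset V => d ≤ S.card),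
          (c S * β' b S) ^ 2) * (2 ^ d *
          (∑ b : V → Bool, ∑ S ∈ univ.filter (fun S : Finset V => d ≤ S.card),
          (α' (graph S b)) ^ 2)) := by ring
      _ ≤ 2 ^ (3 * N) * 2 ^ (5 * N) := by
          refine mul_le_mul hF1 hF2 ?_ (by positivity)
          exact mul_nonneg (by positivity) (sum_nonneg fun b _ => sum_nonneg fun S _ => sq_nonneg _)
      _ = 2 ^ (2 * N) * 2 ^ (6 * N) := by ring
  exact le_of_mul_le_mul_left h4 (by positivity)

/-- each word is read equally often -/
lemma sum_zOf (g : (V → Bool) → ℝ) :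
    ∑ X : V × Bool → Bool, ∑ Y : (V → Bool) × (V → Bool), g (zOf X Y)
      = 2 ^ (3 * Fintype.card V) * ∑ z, g z := by
  have h1 : ∀ (X : V × Bool → Bool) (b : V → Bool), ∑ e : V → Bool, g (zOf X (b, e)) = ∑ z, g z := by
    intro X b
    refine Fintype.sum_equiv
      ⟨fun e v => xor (X (v, b v)) (e v), fun z v => xor (X (v, b v)) (z v), ?_, ?_⟩ _ _ ?_
    · intro e; funext v; simp
    · intro z; funext v; simp
    · intro e; rfl
  have h2 : ∀ X : V × Bool → Bool, ∑ Y : (V → Bool) × (V → Bool), g (zOf X Y)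
      = 2 ^ (Fintype.card V) * ∑ z, g z := by
    intro X
    rw [Fintype.sum_prod_type]
    simp only [h1]
    rw [sum_const, card_univ, Fintype.card_fun, Fintype.card_bool, nsmul_eq_mul]
    push_cast
    ring
  simp only [h2]
  rw [sum_const, card_univ, Fintype.card_fun, Fintype.card_bool, Fintype.card_prod,
    Fintype.card_bool, nsmul_eq_mul]
  push_cast
  ring

end pattern

end Pool.Agent.H53.SD
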