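import Pool.Agent.H53.SD.Fourier
import Pool.Agent.H53.SD.Conj

/-!
Threshold gates have small correlation with low-discrepancy kernels; depth-2 threshold circuits
with integer output weights.
-/

set_option autoImplicit false

namespace Pool.Agent.H53.SD

open Finset

section kernel

variable {X Y : Type*} [Fintype X] [Fintype Y]

/-- random signs: `∑_ω cs (ω p) cs (ω q) = 2^M [p = q]` -/
lemma sum_signs {M : ℕ} (p q : Fin M) :
    ∑ ω : Fin M → Bool, cs (ω p) * cs (ω q) = if p = q then (2 : ℝ) ^ M else 0 := by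
  split_ifs with h
  · subst h
    simp only [cs_mul_self]
    rw [sum_const, card_univ, Fintype.card_fun, Fintype.card_bool, Fintype.card_fin]
    simp
  · have h1 : ∑ ω : Fin M → Bool, cs (ω p) * cs (ω q)
        = ∑ ω : Fin M → Bool, -(cs (ω p) * cs (ω q)) := by
      refine Fintype.sum_equiv
        ⟨fun ω => flip ω p, fun ω => flip ω p, ?_, ?_⟩ _ _ ?_
      · intro ω
        funext v
        show flip (flip ω p) p v = ω v
        by_cases hv : v = p
        · subst hv; simp
        · rw [flip_ne _ hv, flip_ne _ hv]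
      · intro ω
        funext v
        show flip (flip ω p) p v = ω v
        by_cases hv : v = p
        · subst hv; simp
        · rw [flip_ne _ hv, flip_ne _ hv]
      · intro ω
        simp only [Equiv.coe_fn_mk]
        rw [flip_same, flip_ne _ (Ne.symm h)]
        cases ω p <;> cases ω q <;> simp [cs]
    rw [sum_neg_distrib] at h1
    linarith

/-- `K` has cut bound `B` -/
def CutBound (K : X → Y → ℝ) (B : ℝ) : Prop :=
  ∀ (α : X → ℝ) (β : Y → ℝ), (∀ x, |α x| ≤ 1) → (∀ y, |β y| ≤ 1) →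
    |∑ x, ∑ y, K x y * α x * β y| ≤ B

lemma cut_eq {K : X → Y → ℝ} {B : ℝ} (hK : CutBound K B) {M : ℕ} (p : X → Fin M) (q : Y → Fin M)
    (α : X → ℝ) (β : Y → ℝ) (hα : ∀ x, |α x| ≤ 1) (hβ : ∀ y, |β y| ≤ 1) :
    |∑ x, ∑ y, K x y * (if p x = q y then α x * β y else 0)| ≤ B := by
  have h1 : (2 : ℝ) ^ M * ∑ x, ∑ y, K x y * (if p x = q y then α x * β y else 0)
      = ∑ ω : Fin M → Bool, ∑ x, ∑ y, K x y * (cs (ω (p x)) * α x) * (cs (ω (q y)) * β y) := by
    have hswap : ∑ ω : Fin M → Bool, ∑ x, ∑ y,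
          K x y * (cs (ω (p x)) * α x) * (cs (ω (q y)) * β y)
        = ∑ x, ∑ y, ∑ ω : Fin M → Bool,
          K x y * (cs (ω (p x)) * α x) * (cs (ω (q y)) * β y) := by
      rw [sum_comm]
      refine sum_congr rfl fun x _ => ?_
      rw [sum_comm]
    rw [hswap, mul_sum]
    refine sum_congr rfl fun x _ => ?_
    rw [mul_sum]
    refine sum_congr rfl fun y _ => ?_
    have h2 : ∀ ω : Fin M → Bool, K x y * (cs (ω (p x)) * α x) * (cs (ω (q y)) * β y)
        = (K x y * α x * β y) * (cs (ω (p x)) * cs (ω (q y))) := fun ω => by ring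
    simp only [h2]
    rw [← mul_sum, sum_signs]
    split_ifs <;> ring
  have h3 : |(2 : ℝ) ^ M * ∑ x, ∑ y, K x y * (if p x = q y then α x * β y else 0)|
      ≤ 2 ^ M * B := by
    rw [h1]
    refine (abs_sum_le_sum_abs _ _).trans ?_
    calc ∑ ω : Fin M → Bool, |∑ x, ∑ y, K x y * (cs (ω (p x)) * α x) * (cs (ω (q y)) * β y)|
        ≤ ∑ _ω : Fin M → Bool, B := by
          refine sum_le_sum fun ω _ => hK _ _ (fun x => ?_) (fun y => ?_)
          · rw [abs_mul, abs_cs, one_mul]; exact hα x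
          · rw [abs_mul, abs_cs, one_mul]; exact hβ y
      _ = 2 ^ M * B := by
          rw [sum_const, card_univ, Fintype.card_fun, Fintype.card_bool, Fintype.card_fin,
            nsmul_eq_mul]
          push_cast
          ring
  rw [abs_mul, abs_of_pos (by positivity : (0 : ℝ) < 2 ^ M)] at h3
  exact le_of_mul_le_mul_left h3 (by positivity)

lemma cut_lt {K : X → Y → ℝ} {B : ℝ} (hK : CutBound K B) (m : ℕ) :
    ∀ (r : X → ℕ) (ρ : Y → ℕ), (∀ x, r x < 2 ^ m) → (∀ y, ρ y < 2 ^ m) →
    ∀ (α : X → ℝ) (β : Y → ℝ), (∀ x, |α x| ≤ 1) → (∀ y, |β y| ≤ 1) →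
    |∑ x, ∑ y, K x y * (if ρ y < r x then α x * β y else 0)| ≤ m * B := by
  induction m with
  | zero =>
    intro r ρ hr hρ α β _ _
    have : ∀ x y, ¬ (ρ y < r x) := by
      intro x y
      have := hr x
      simp only [pow_zero, Nat.lt_one_iff] at this
      omega
    simp [this]
  | succ m ih =>
    intro r ρ hr hρ α β hα hβ
    have hr' : ∀ x, r x / 2 < 2 ^ m := by
      intro x
      have := hr x
      rw [pow_succ] at this
      omega
    have hρ' : ∀ y, ρ y / 2 < 2 ^ m := by
      intro y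
      have := hρ y
      rw [pow_succ] at this
      omega
    have h1 := ih (fun x => r x / 2) (fun y => ρ y / 2) hr' hρ' α β hα hβ
    have h2 := cut_eq hK (fun x => (⟨r x / 2, hr' x⟩ : Fin (2 ^ m))) (fun y => ⟨ρ y / 2, hρ' y⟩)
      (fun x => if r x % 2 = 1 then α x else 0) (fun y => if ρ y % 2 = 0 then β y else 0)
      (fun x => by split_ifs; exacts [hα x, by simp]) (fun y => by split_ifs; exacts [hβ y, by simp])
    have h3 : ∑ x, ∑ y, K x y * (if ρ y < r x then α x * β y else 0)
        = (∑ x, ∑ y, K x y * (if ρ y / 2 < r x / 2 then α x * β y else 0))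
        + ∑ x, ∑ y, K x y * (if (⟨r x / 2, hr' x⟩ : Fin (2 ^ m)) = ⟨ρ y / 2, hρ' y⟩ then
          (if r x % 2 = 1 then α x else 0) * (if ρ y % 2 = 0 then β y else 0) else 0) := by
      rw [← sum_add_distrib]
      refine sum_congr rfl fun x _ => ?_
      rw [← sum_add_distrib]
      refine sum_congr rfl fun y _ => ?_
      rw [← mul_add]
      congr 1
      simp only [Fin.mk.injEq]
      by_cases c1 : ρ y / 2 < r x / 2
      · have c2 : ρ y < r x := by omega
        have c3 : ¬ (r x / 2 = ρ y / 2) := by omega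
        rw [if_pos c1, if_pos c2, if_neg c3, add_zero]
      · by_cases c3 : r x / 2 = ρ y / 2
        · rw [if_neg c1, if_pos c3, zero_add]
          by_cases c4 : ρ y < r x
          · have c5 : r x % 2 = 1 := by omega
            have c6 : ρ y % 2 = 0 := by omega
            rw [if_pos c4, if_pos c5, if_pos c6]
          · rw [if_neg c4]
            by_cases c5 : r x % 2 = 1
            · have c6 : ¬ (ρ y % 2 = 0) := by omega
              rw [if_neg c6, mul_zero]
            · rw [if_neg c5, zero_mul]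
        · have c2 : ¬ (ρ y < r x) := by omega
          rw [if_neg c1, if_neg c2, if_neg c3, add_zero]
    rw [h3]
    refine (abs_add_le _ _).trans ?_
    push_cast
    linarith

/-- threshold gates on a split input -/
lemma cut_threshold {K : X → Y → ℝ} {B : ℝ} (hK : CutBound K B) (m : ℕ)
    (hm : Fintype.card X < 2 ^ m) (P : X → ℝ) (Q : Y → ℝ) :
    |∑ x, ∑ y, K x y * (if 0 ≤ P x + Q y then 1 else 0)| ≤ m * B := by
  classical
  have hr : ∀ x : X, (univ.filter (fun x' => P x' < P x)).card + 1 < 2 ^ m := by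
    intro x
    have : (univ.filter (fun x' => P x' < P x)).card < Fintype.card X := by
      rw [← card_univ]
      refine card_lt_card ?_
      rw [ssubset_univ_iff]
      intro h
      have := h ▸ mem_univ x
      simp at this
    omega
  have hρ : ∀ y : Y, (univ.filter (fun x' => P x' < - Q y)).card < 2 ^ m := by
    intro y
    exact (card_le_univ _).trans_lt hm
  have h := cut_lt hK m _ _ hr hρ (fun _ => 1) (fun _ => 1) (by simp) (by simp)
  have e : ∑ x, ∑ y, K x y * (if 0 ≤ P x + Q y then 1 else 0)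
      = ∑ x, ∑ y, K x y * (if (univ.filter (fun x' => P x' < - Q y)).card
        < (univ.filter (fun x' => P x' < P x)).card + 1 then (1 : ℝ) * 1 else 0) := by
    refine sum_congr rfl fun x _ => sum_congr rfl fun y _ => ?_
    congr 1
    rw [one_mul]
    have hiff : (0 ≤ P x + Q y) ↔ ((univ.filter (fun x' => P x' < - Q y)).card
        < (univ.filter (fun x' => P x' < P x)).card + 1) := by
      constructor
      · intro h0
        rw [Nat.lt_succ_iff]
        refine card_le_card ?_
        intro x' hx'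
        rw [mem_filter] at hx' ⊢
        exact ⟨mem_univ _, by linarith [hx'.2]⟩
      · intro h0
        by_contra hneg
        push Not at hneg
        have hsub : insert x (univ.filter (fun x' => P x' < P x))
            ⊆ univ.filter (fun x' => P x' < - Q y) := by
          intro x' hx'
          rw [mem_insert] at hx'
          rw [mem_filter]
          refine ⟨mem_univ _, ?_⟩
          rcases hx' with h' | h'
          · rw [h']; linarith
          · rw [mem_filter] at h'
            linarith [h'.2]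
        have hc := card_le_card hsub
        rw [card_insert_of_notMem (by simp)] at hc
        omega
    by_cases h0 : 0 ≤ P x + Q y
    · rw [if_pos h0, if_pos (hiff.1 h0)]
    · rw [if_neg h0, if_neg (fun h' => h0 (hiff.2 h'))]
  rw [e]
  exact h

end kernel

lemma pull_sum {X Y Q : Type*} [Fintype X] [Fintype Y] [Fintype Q] (b : Q → ℝ) (K : X → Y → ℝ)
    (g : Q → X → Y → ℝ) :
    ∑ x, ∑ y, 2 * ∑ q, b q * (K x y * g q x y) = 2 * ∑ q, b q * ∑ x, ∑ y, K x y * g q x y := by
  simp only [mul_sum]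
  have h1 : ∀ x, ∑ y, ∑ q, 2 * (b q * (K x y * g q x y))
      = ∑ q, ∑ y, 2 * (b q * (K x y * g q x y)) := fun x => sum_comm
  simp only [h1]
  rw [sum_comm]

section circuits

variable {V : Type*} [Fintype V] [DecidableEq V]

/-- assemble an input of `comp F gadF` from data bits `X` and selector/mask bits `Y` -/
def mk (X : V × Bool → Bool) (Y : (V → Bool) × (V → Bool)) : V × (Bool × Bool) → Bool := fun q =>
  if q.2.1 then (if q.2.2 then Y.2 q.1 else Y.1 q.1) else X (q.1, q.2.2)

lemma comp_gadF_mk (F : (V → Bool) → Bool) (X : V × Bool → Bool) (Y : (V → Bool) × (V → Bool)) :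
    comp F gadF (mk X Y) = F (zOf X Y) := by
  unfold comp
  congr 1

/-- the `0/1` value of a bit -/
def bv (b : Bool) : ℝ := if b then 1 else 0

lemma linear_split (u : V × (Bool × Bool) → ℝ) (X : V × Bool → Bool)
    (Y : (V → Bool) × (V → Bool)) :
    ∑ q, u q * bv (mk X Y q)
      = ∑ q, u q * bv (mk X (fun _ => false, fun _ => false) q)
        + ∑ q, u q * bv (mk (fun _ => false) Y q) := by
  rw [← sum_add_distrib]
  refine sum_congr rfl fun q _ => ?_
  rw [← mul_add]
  congr 1
  unfold mk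
  obtain ⟨v, a, c⟩ := q
  cases a <;> cases c <;> simp [bv]

/-- **Depth-2 threshold circuits with integer output weights.** -/
theorem depth2_lower_bound (F : (V → Bool) → Bool) (d : ℕ) (hd : 0 < d)
    (hF : ∀ D, ∀ P ∈ degLE V D, SignRep P F → 2 * d ≤ D)
    (M : ℕ) (u : Fin M → V × (Bool × Bool) → ℝ) (t : Fin M → ℝ)
    (a : V × (Bool × Bool) → ℤ) (c : Fin M → ℤ) (θ : ℝ)
    (hf : ∀ x, comp F gadF x = decide (θ ≤ ∑ q, (a q : ℝ) * bv (x q)
      + ∑ j, (c j : ℝ) * (if t j ≤ ∑ q, u j q * bv (x q) then (1 : ℝ) else 0))) :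
    (2 : ℝ) ^ d ≤ 2 * (2 * Fintype.card V + 1) * (∑ q, |(a q : ℝ)| + ∑ j, |(c j : ℝ)|) := by
  classical
  set N := Fintype.card V with hN
  -- the dual weight
  obtain ⟨w, hw0, hw1, hworth⟩ := exists_dual F (2 * d - 1) (fun P hP hs => by
    have := hF (2 * d - 1) P hP hs
    omega)
  set ψ : (V → Bool) → ℝ := fun z => w z * sg (F z) with hψ
  have hψ1 : ∑ z, |ψ z| ≤ 1 := by
    rw [← hw1]
    refine le_of_eq (sum_congr rfl fun z _ => ?_)
    rw [hψ]
    simp only
    rw [abs_mul, abs_sg, mul_one, abs_of_nonneg (hw0 z)]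
  have horth : ∀ S : Finset V, S.card < 2 * d → ∑ z, ψ z * chi S z = 0 := by
    intro S hS
    exact hworth (chi S) (Submodule.subset_span ⟨S, by omega, isJunta_chi S⟩)
  set K : (V × Bool → Bool) → ((V → Bool) × (V → Bool)) → ℝ := fun X Y => ψ (zOf X Y) with hK
  set B : ℝ := 2 ^ (3 * N) / 2 ^ d with hB
  have hBpos : 0 < B := by positivity
  have hcut : CutBound K B := by
    intro α β hα hβ
    have h := pattern_discrepancy ψ hψ1 (2 * d) horth α β hα hβ
    refine abs_le_of_sq_le_sq ?_ hBpos.le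
    rw [hB, div_pow, le_div_iff₀ (by positivity)]
    calc (∑ X, ∑ Y, K X Y * α X * β Y) ^ 2 * (2 ^ d) ^ 2
        = 2 ^ (2 * d) * (∑ X, ∑ Y, ψ (zOf X Y) * α X * β Y) ^ 2 := by
          rw [hK]; ring
      _ ≤ 2 ^ (6 * N) := h
      _ = (2 ^ (3 * N)) ^ 2 := by ring
  have hm : Fintype.card (V × Bool → Bool) < 2 ^ (2 * N + 1) := by
    rw [Fintype.card_fun, Fintype.card_bool, Fintype.card_prod, Fintype.card_bool, ← hN,
      mul_comm N 2]
    exact Nat.pow_lt_pow_right (by norm_num) (by omega)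
  -- correlation of a threshold gate
  have hgate : ∀ (uu : V × (Bool × Bool) → ℝ) (tt : ℝ),
      |∑ X, ∑ Y, K X Y * (if tt ≤ ∑ q, uu q * bv (mk X Y q) then (1 : ℝ) else 0)|
        ≤ (2 * N + 1 : ℕ) * B := by
    intro uu tt
    have h := cut_threshold hcut (2 * N + 1) hm
      (fun X => ∑ q, uu q * bv (mk X (fun _ => false, fun _ => false) q) - tt)
      (fun Y => ∑ q, uu q * bv (mk (fun _ => false) Y q))
    have e : ∑ X, ∑ Y, K X Y * (if tt ≤ ∑ q, uu q * bv (mk X Y q) then (1 : ℝ) else 0)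
        = ∑ X, ∑ Y, K X Y * (if 0 ≤
          (∑ q, uu q * bv (mk X (fun _ => false, fun _ => false) q) - tt)
          + (∑ q, uu q * bv (mk (fun _ => false) Y q)) then 1 else 0) := by
      refine sum_congr rfl fun X _ => sum_congr rfl fun Y _ => ?_
      congr 1
      rw [linear_split uu X Y]
      exact if_congr (by constructor <;> intro h' <;> linarith) rfl rfl
    rw [e]
    exact h
  -- a single input bit as a gate
  have hbit : ∀ q : V × (Bool × Bool), |∑ X, ∑ Y, K X Y * bv (mk X Y q)|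
      ≤ (2 * N + 1 : ℕ) * B := by
    intro q
    have h := hgate (fun q' => if q' = q then 1 else 0) 1
    have e : ∑ X, ∑ Y, K X Y * bv (mk X Y q)
        = ∑ X, ∑ Y, K X Y * (if 1 ≤ ∑ q', (if q' = q then (1 : ℝ) else 0) * bv (mk X Y q')
          then (1 : ℝ) else 0) := by
      refine sum_congr rfl fun X _ => sum_congr rfl fun Y _ => ?_
      congr 1
      have : ∑ q' : V × (Bool × Bool), (if q' = q then (1 : ℝ) else 0) * bv (mk X Y q')
          = bv (mk X Y q) := by
        simp
      rw [this]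
      unfold bv
      cases mk X Y q
      · simp
      · simp
    rw [e]
    exact h
  -- the integer threshold
  set Θ : ℤ := ⌈θ⌉ with hΘ
  set G : (V × (Bool × Bool) → Bool) → ℤ := fun x => ∑ q, a q * (if x q then 1 else 0)
      + ∑ j, c j * (if t j ≤ ∑ q, u j q * bv (x q) then 1 else 0) with hG
  have hGcast : ∀ x, ((G x : ℤ) : ℝ) = ∑ q, (a q : ℝ) * bv (x q)
      + ∑ j, (c j : ℝ) * (if t j ≤ ∑ q, u j q * bv (x q) then (1 : ℝ) else 0) := by
    intro x
    rw [hG]
    push_cast
    rfl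
  have hval : ∀ x, 1 ≤ sg (comp F gadF x) * (2 * ((G x : ℝ) - Θ) + 1) := by
    intro x
    have h1 := hf x
    rw [← hGcast x] at h1
    by_cases h2 : θ ≤ (G x : ℝ)
    · rw [h1, decide_eq_true h2]
      have h3 : Θ ≤ G x := by rw [hΘ, Int.ceil_le]; exact h2
      have h4 : (Θ : ℝ) ≤ G x := by exact_mod_cast h3
      simp only [sg, if_true]
      linarith
    · rw [h1, decide_eq_false h2]
      have h3 : G x < Θ := by
        rw [hΘ, Int.lt_ceil]
        exact not_le.1 h2
      have h4 : G x + 1 ≤ Θ := h3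
      have h5 : (G x : ℝ) + 1 ≤ Θ := by exact_mod_cast h4
      simp only [sg, Bool.false_eq_true, if_false]
      linarith
  -- pair with the kernel
  have hlow : (2 : ℝ) ^ (3 * N) ≤ ∑ X, ∑ Y, K X Y * (2 * ((G (mk X Y) : ℝ) - Θ) + 1) := by
    have h1 := sum_zOf (V := V) w
    rw [hw1, mul_one, ← hN] at h1
    rw [← h1]
    refine sum_le_sum fun X _ => sum_le_sum fun Y _ => ?_
    have h2 := hval (mk X Y)
    rw [comp_gadF_mk] at h2
    calc w (zOf X Y) = w (zOf X Y) * 1 := (mul_one _).symm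
      _ ≤ w (zOf X Y) * (sg (F (zOf X Y)) * (2 * ((G (mk X Y) : ℝ) - Θ) + 1)) :=
          mul_le_mul_of_nonneg_left h2 (hw0 _)
      _ = K X Y * (2 * ((G (mk X Y) : ℝ) - Θ) + 1) := by
          rw [hK, hψ]; ring
  have hzero : ∑ X, ∑ Y, K X Y = 0 := by
    have h1 := sum_zOf (V := V) ψ
    have h2 := horth ∅ (by simp; omega)
    simp only [chi, prod_empty, mul_one] at h2
    rw [h2, mul_zero] at h1
    exact h1
  have hexp : ∑ X, ∑ Y, K X Y * (2 * ((G (mk X Y) : ℝ) - Θ) + 1)
      = 2 * (∑ q, (a q : ℝ) * (∑ X, ∑ Y, K X Y * bv (mk X Y q)))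
        + 2 * (∑ j, (c j : ℝ) * (∑ X, ∑ Y,
          K X Y * (if t j ≤ ∑ q, u j q * bv (mk X Y q) then (1 : ℝ) else 0))) := by
    have e1 : ∀ X Y, K X Y * (2 * ((G (mk X Y) : ℝ) - Θ) + 1)
        = 2 * (∑ q, (a q : ℝ) * (K X Y * bv (mk X Y q)))
          + 2 * (∑ j, (c j : ℝ) * (K X Y *
            (if t j ≤ ∑ q, u j q * bv (mk X Y q) then (1 : ℝ) else 0)))
          + (1 - 2 * (Θ : ℝ)) * K X Y := by
      intro X Y
      rw [hGcast]
      have e2 : ∑ q, (a q : ℝ) * (K X Y * bv (mk X Y q))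
          = K X Y * ∑ q, (a q : ℝ) * bv (mk X Y q) := by
        rw [mul_sum]; refine sum_congr rfl fun q _ => ?_; ring
      have e3 : ∑ j, (c j : ℝ) * (K X Y *
            (if t j ≤ ∑ q, u j q * bv (mk X Y q) then (1 : ℝ) else 0))
          = K X Y * ∑ j, (c j : ℝ) *
            (if t j ≤ ∑ q, u j q * bv (mk X Y q) then (1 : ℝ) else 0) := by
        rw [mul_sum]; refine sum_congr rfl fun q _ => ?_; ring
      rw [e2, e3]
      ring
    calc ∑ X, ∑ Y, K X Y * (2 * ((G (mk X Y) : ℝ) - Θ) + 1)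
        = ∑ X, ∑ Y, (2 * (∑ q, (a q : ℝ) * (K X Y * bv (mk X Y q)))
          + 2 * (∑ j, (c j : ℝ) * (K X Y *
            (if t j ≤ ∑ q, u j q * bv (mk X Y q) then (1 : ℝ) else 0)))
          + (1 - 2 * (Θ : ℝ)) * K X Y) :=
          sum_congr rfl fun X _ => sum_congr rfl fun Y _ => e1 X Y
      _ = (∑ X, ∑ Y, 2 * (∑ q, (a q : ℝ) * (K X Y * bv (mk X Y q))))
          + (∑ X, ∑ Y, 2 * (∑ j, (c j : ℝ) * (K X Y *
            (if t j ≤ ∑ q, u j q * bv (mk X Y q) then (1 : ℝ) else 0))))
          + (∑ X, ∑ Y, (1 - 2 * (Θ : ℝ)) * K X Y) := by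
          simp only [sum_add_distrib]
      _ = _ := by
          rw [pull_sum (fun q => (a q : ℝ)) K (fun q X Y => bv (mk X Y q)),
            pull_sum (fun j => (c j : ℝ)) K (fun j X Y =>
              (if t j ≤ ∑ q, u j q * bv (mk X Y q) then (1 : ℝ) else 0))]
          have e4 : (∑ X, ∑ Y, (1 - 2 * (Θ : ℝ)) * K X Y) = 0 := by
            simp only [← mul_sum]
            rw [hzero, mul_zero]
          rw [e4, add_zero]
  -- upper bound
  have hup1 : ∑ q, (a q : ℝ) * (∑ X, ∑ Y, K X Y * bv (mk X Y q))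
      ≤ (∑ q, |(a q : ℝ)|) * ((2 * N + 1 : ℕ) * B) := by
    rw [sum_mul]
    refine sum_le_sum fun q _ => (le_abs_self _).trans ?_
    rw [abs_mul]
    exact mul_le_mul_of_nonneg_left (hbit q) (abs_nonneg _)
  have hup2 : ∑ j, (c j : ℝ) * (∑ X, ∑ Y,
          K X Y * (if t j ≤ ∑ q, u j q * bv (mk X Y q) then (1 : ℝ) else 0))
      ≤ (∑ j, |(c j : ℝ)|) * ((2 * N + 1 : ℕ) * B) := by
    rw [sum_mul]
    refine sum_le_sum fun j _ => (le_abs_self _).trans ?_
    rw [abs_mul]
    exact mul_le_mul_of_nonneg_left (hgate (u j) (t j)) (abs_nonneg _)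
  rw [hexp] at hlow
  have hfin : (2 : ℝ) ^ (3 * N)
      ≤ 2 * (2 * N + 1) * (∑ q, |(a q : ℝ)| + ∑ j, |(c j : ℝ)|) * B := by
    push_cast at hup1 hup2
    nlinarith [hlow, hup1, hup2]
  have hBe : (2 : ℝ) ^ (3 * N) = 2 ^ d * B := by
    rw [hB]
    field_simp
  rw [hBe] at hfin
  exact le_of_mul_le_mul_right hfin hBpos

end circuits

end Pool.Agent.H53.SD
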