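import Pool.Agent.H53.SD.Deg

/-!
The Minsky-Papert symmetrization: block sensitivity of `Φ` at the all-zero input (after the
switch gadget `norF`) forces sign degree.
-/

set_option autoImplicit false

namespace Pool.Agent.H53.SD

open Finset Polynomial

section counting

lemma card_superset {k : ℕ} (R : Finset (Fin k)) (a : ℕ) :
    ((powersetCard a (univ : Finset (Fin k))).filter (fun A => R ⊆ A)).card * k.choose R.card
      = k.choose a * a.choose R.card := by
  by_cases hab : R.card ≤ a
  · have hRk : R.card ≤ k := by simpa using card_le_univ R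
    have : ((powersetCard a (univ : Finset (Fin k))).filter (fun A => R ⊆ A)).card
        = (powersetCard (a - R.card) (univ \ R)).card := by
      refine card_nbij' (fun A => A \ R) (fun B => B ∪ R) ?_ ?_ ?_ ?_
      · intro A hA
        rw [mem_coe, mem_filter, mem_powersetCard] at hA
        rw [mem_coe, mem_powersetCard]
        exact ⟨sdiff_subset_sdiff hA.1.1 (subset_refl R), by rw [card_sdiff_of_subset hA.2, hA.1.2]⟩
      · intro B hB
        rw [mem_coe, mem_powersetCard] at hB
        rw [mem_coe, mem_filter, mem_powersetCard]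
        have hdisj : Disjoint B R := by
          rw [disjoint_left]
          intro x hx
          exact (mem_sdiff.1 (hB.1 hx)).2
        refine ⟨⟨subset_univ _, ?_⟩, subset_union_right⟩
        rw [card_union_of_disjoint hdisj, hB.2]
        omega
      · intro A hA
        rw [mem_coe, mem_filter] at hA
        exact sdiff_union_of_subset hA.2
      · intro B hB
        rw [mem_coe, mem_powersetCard] at hB
        have hdisj : Disjoint B R := by
          rw [disjoint_left]
          intro x hx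
          exact (mem_sdiff.1 (hB.1 hx)).2
        exact union_sdiff_cancel_right hdisj
    rw [this, card_powersetCard, card_sdiff_of_subset (subset_univ R)]
    simp only [card_univ, Fintype.card_fin]
    rw [Nat.choose_mul hab, mul_comm]
  · push Not at hab
    have h0 : (powersetCard a (univ : Finset (Fin k))).filter (fun A => R ⊆ A) = ∅ := by
      rw [filter_eq_empty_iff]
      intro A hA hRA
      rw [mem_powersetCard] at hA
      have := card_le_card hRA
      omega
    rw [h0, Nat.choose_eq_zero_of_lt hab]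
    simp

end counting

section sym

variable {I : Type*} [Fintype I] [DecidableEq I] {k : ℕ}

/-- indicator vector of a family of subsets -/
def ind (A : I → Finset (Fin k)) : I × Fin k → Bool := fun q => decide (q.2 ∈ A q.1)

/-- sum of `h` over all families of subsets with prescribed sizes -/
noncomputable def sumSub (h : (I × Fin k → Bool) → ℝ) (a : I → ℕ) : ℝ :=
  ∑ A ∈ Fintype.piFinset (fun i => powersetCard (a i) (univ : Finset (Fin k))), h (ind A)

/-- normalised version -/
noncomputable def avgSub (h : (I × Fin k → Bool) → ℝ) (a : I → ℕ) : ℝ :=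
  sumSub h a / ∏ i, (k.choose (a i) : ℝ)

lemma sumSub_add (h g : (I × Fin k → Bool) → ℝ) (a : I → ℕ) :
    sumSub (h + g) a = sumSub h a + sumSub g a := by
  simp [sumSub, sum_add_distrib]

lemma sumSub_smul (c : ℝ) (h : (I × Fin k → Bool) → ℝ) (a : I → ℕ) :
    sumSub (c • h) a = c * sumSub h a := by
  simp [sumSub, mul_sum]

/-- the part of `R` in row `i` -/
def rowOf (R : Finset (I × Fin k)) (i : I) : Finset (Fin k) := univ.filter (fun l => (i, l) ∈ R)

lemma sum_card_rowOf (R : Finset (I × Fin k)) : ∑ i, (rowOf R i).card = R.card := by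
  rw [card_eq_sum_card_fiberwise (f := fun q : I × Fin k => q.1) (t := univ) (by intro q _; simp)]
  refine sum_congr rfl fun i _ => ?_
  refine card_nbij' (fun l => (i, l)) (fun q => q.2) ?_ ?_ ?_ ?_
  · intro l hl
    rw [mem_coe, rowOf, mem_filter] at hl
    rw [mem_coe, mem_filter]
    exact ⟨hl.2, rfl⟩
  · rintro ⟨i', l⟩ hq
    rw [mem_coe, mem_filter] at hq
    obtain ⟨h1, h2⟩ := hq
    simp only at h2
    subst h2
    rw [mem_coe, rowOf, mem_filter]
    exact ⟨mem_univ _, h1⟩
  · intro l _
    rfl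
  · rintro ⟨i', l⟩ hq
    rw [mem_coe, mem_filter] at hq
    obtain ⟨_, h2⟩ := hq
    simp only at h2
    subst h2
    rfl

lemma mon_ind (R : Finset (I × Fin k)) (A : I → Finset (Fin k)) :
    mon R (ind A) = ∏ i, if rowOf R i ⊆ A i then (1 : ℝ) else 0 := by
  unfold mon ind
  by_cases h : ∀ q ∈ R, q.2 ∈ A q.1
  · rw [prod_eq_one, prod_eq_one]
    · intro i _
      rw [if_pos]
      intro l hl
      rw [rowOf, mem_filter] at hl
      exact h (i, l) hl.2
    · intro q hq
      simp [h q hq]
  · push Not at h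
    obtain ⟨q, hq, hqA⟩ := h
    rw [prod_eq_zero hq (by simp [hqA]), prod_eq_zero (mem_univ q.1)]
    rw [if_neg]
    intro hsub
    apply hqA
    apply hsub
    rw [rowOf, mem_filter]
    exact ⟨mem_univ _, hq⟩

lemma sumSub_mon (R : Finset (I × Fin k)) (a : I → ℕ) :
    sumSub (mon R) a = ∏ i,
      ((((powersetCard (a i) (univ : Finset (Fin k))).filter (fun A => rowOf R i ⊆ A)).card : ℕ) : ℝ)
      := by
  unfold sumSub
  have : ∀ i, ((((powersetCard (a i) (univ : Finset (Fin k))).filter
      (fun A => rowOf R i ⊆ A)).card : ℕ) : ℝ)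
      = ∑ A ∈ powersetCard (a i) (univ : Finset (Fin k)), if rowOf R i ⊆ A then (1 : ℝ) else 0 := by
    intro i
    rw [sum_boole]
  simp only [this]
  rw [prod_univ_sum]
  refine sum_congr rfl fun A _ => ?_
  rw [mon_ind]

lemma avgSub_mon (R : Finset (I × Fin k)) (a : I → ℕ) (ha : ∀ i, a i ≤ k) :
    avgSub (mon R) a = ∏ i, (((a i).choose (rowOf R i).card : ℝ) / (k.choose (rowOf R i).card : ℝ))
      := by
  unfold avgSub
  rw [sumSub_mon, ← prod_div_distrib]
  refine prod_congr rfl fun i _ => ?_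
  have h1 : (k.choose (a i) : ℝ) ≠ 0 := by
    exact_mod_cast (Nat.choose_pos (ha i)).ne'
  have h2 : (k.choose (rowOf R i).card : ℝ) ≠ 0 := by
    have : (rowOf R i).card ≤ k := by simpa using card_le_univ (rowOf R i)
    exact_mod_cast (Nat.choose_pos this).ne'
  rw [div_eq_div_iff h1 h2]
  have := card_superset (rowOf R i) (a i)
  have h3 : ((((powersetCard (a i) (univ : Finset (Fin k))).filter
      (fun A => rowOf R i ⊆ A)).card : ℕ) : ℝ) * (k.choose (rowOf R i).card : ℝ)
      = (k.choose (a i) : ℝ) * ((a i).choose (rowOf R i).card : ℝ) := by exact_mod_cast this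
  rw [h3]
  ring

/-- the polynomial `x ↦ (x choose b)` -/
noncomputable def choosePoly (b : ℕ) : ℝ[X] := C ((b.factorial : ℝ)⁻¹) * descPochhammer ℝ b

lemma choosePoly_eval (b n : ℕ) : (choosePoly b).eval (n : ℝ) = (n.choose b : ℝ) := by
  unfold choosePoly
  rw [eval_mul, eval_C, descPochhammer_eval_eq_descFactorial, Nat.descFactorial_eq_factorial_mul_choose]
  push_cast
  have : (b.factorial : ℝ) ≠ 0 := by exact_mod_cast b.factorial_ne_zero
  field_simp

lemma choosePoly_natDegree (b : ℕ) : (choosePoly b).natDegree ≤ b := by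
  unfold choosePoly
  refine (natDegree_C_mul_le _ _).trans ?_
  rw [descPochhammer_natDegree]

/-- the Minsky-Papert curve -/
def curve (ι : I → ℕ) (τ : ℕ) (i : I) : ℕ := (Int.natAbs ((τ : ℤ) - (2 * (ι i : ℤ) + 1))) ^ 2

noncomputable def curvePoly (ι : I → ℕ) (i : I) : ℝ[X] := (X - C (2 * (ι i : ℝ) + 1)) ^ 2

lemma curvePoly_eval (ι : I → ℕ) (i : I) (τ : ℕ) :
    (curvePoly ι i).eval (τ : ℝ) = (curve ι τ i : ℝ) := by
  unfold curvePoly curve
  rw [eval_pow, eval_sub, eval_X, eval_C]
  push_cast
  rw [Nat.cast_natAbs, Int.cast_abs, sq_abs]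
  push_cast
  ring

lemma curvePoly_natDegree (ι : I → ℕ) (i : I) : (curvePoly ι i).natDegree ≤ 2 := by
  unfold curvePoly
  refine natDegree_pow_le.trans ?_
  rw [natDegree_X_sub_C]

lemma avgSub_add (h g : (I × Fin k → Bool) → ℝ) (a : I → ℕ) :
    avgSub (h + g) a = avgSub h a + avgSub g a := by
  simp [avgSub, sumSub_add, add_div]

lemma avgSub_smul (c : ℝ) (h : (I × Fin k → Bool) → ℝ) (a : I → ℕ) :
    avgSub (c • h) a = c * avgSub h a := by
  simp [avgSub, sumSub_smul, mul_div_assoc]

lemma exists_poly_aux (ι : I → ℕ) (D N : ℕ) (hk : ∀ τ ≤ N, ∀ i, curve ι τ i ≤ k)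
    {h : (I × Fin k → Bool) → ℝ}
    (hh : h ∈ Submodule.span ℝ (mon '' {R : Finset (I × Fin k) | R.card ≤ D})) :
    ∃ q : ℝ[X], q.natDegree ≤ 2 * D ∧ ∀ τ ≤ N, q.eval (τ : ℝ) = avgSub h (curve ι τ) := by
  induction hh using Submodule.span_induction with
  | mem h hmem =>
    obtain ⟨R, hR, rfl⟩ := hmem
    refine ⟨∏ i, C ((k.choose (rowOf R i).card : ℝ)⁻¹) *
      (choosePoly (rowOf R i).card).comp (curvePoly ι i), ?_, ?_⟩
    · refine (natDegree_prod_le _ _).trans ?_
      calc ∑ i, (C ((k.choose (rowOf R i).card : ℝ)⁻¹) *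
            (choosePoly (rowOf R i).card).comp (curvePoly ι i)).natDegree
          ≤ ∑ i, (rowOf R i).card * 2 := by
            refine sum_le_sum fun i _ => ?_
            refine (natDegree_C_mul_le _ _).trans ?_
            rw [natDegree_comp]
            exact Nat.mul_le_mul (choosePoly_natDegree _) (curvePoly_natDegree ι i)
        _ = R.card * 2 := by rw [← sum_mul, sum_card_rowOf]
        _ ≤ 2 * D := by
            have : R.card ≤ D := hR
            omega
    · intro τ hτ
      rw [avgSub_mon R _ (hk τ hτ), eval_prod]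
      refine prod_congr rfl fun i _ => ?_
      rw [eval_mul, eval_C, eval_comp, curvePoly_eval, choosePoly_eval]
      rw [div_eq_inv_mul]
  | zero =>
    refine ⟨0, by simp, fun τ _ => ?_⟩
    simp [avgSub, sumSub]
  | add h g _ _ ih1 ih2 =>
    obtain ⟨q1, hq1, e1⟩ := ih1
    obtain ⟨q2, hq2, e2⟩ := ih2
    refine ⟨q1 + q2, (natDegree_add_le _ _).trans (max_le hq1 hq2), fun τ hτ => ?_⟩
    rw [eval_add, e1 τ hτ, e2 τ hτ, avgSub_add]
  | smul c h _ ih =>
    obtain ⟨q, hq, e⟩ := ih
    refine ⟨C c * q, (natDegree_C_mul_le _ _).trans hq, fun τ hτ => ?_⟩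
    rw [eval_mul, eval_C, e τ hτ, avgSub_smul]

lemma exists_poly (ι : I → ℕ) (D N : ℕ) (hk : ∀ τ ≤ N, ∀ i, curve ι τ i ≤ k)
    {h : (I × Fin k → Bool) → ℝ} (hh : h ∈ degLE (I × Fin k) D) :
    ∃ q : ℝ[X], q.natDegree ≤ 2 * D ∧ ∀ τ ≤ N, q.eval (τ : ℝ) = avgSub h (curve ι τ) :=
  exists_poly_aux ι D N hk (degLE_le_span_mon D hh)

lemma comp_norF_ind (Φ : (I → Bool) → Bool) (A : I → Finset (Fin k)) :
    comp Φ (norF (K := Fin k)) (ind A) = Φ (fun i => decide ((A i).card = 0)) := by
  unfold comp
  congr 1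
  funext i
  unfold norF orF ind
  by_cases h : A i = ∅
  · simp [h]
  · have h' : ∃ l, l ∈ A i := Finset.nonempty_iff_ne_empty.2 h
    have h'' : (A i).card ≠ 0 := by
      rw [Ne, card_eq_zero]
      exact h
    obtain ⟨l, hl⟩ := h'
    simp only [decide_eq_true_eq, h'', decide_false, Bool.not_eq_false']
    exact ⟨l, by simpa using hl⟩

lemma avgSub_sign {Φ : (I → Bool) → Bool} {h : (I × Fin k → Bool) → ℝ}
    (hh : SignRep h (comp Φ (norF (K := Fin k)))) (a : I → ℕ) (ha : ∀ i, a i ≤ k) :
    (Φ (fun i => decide (a i = 0)) = true → 0 < avgSub h a) ∧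
    (Φ (fun i => decide (a i = 0)) = false → avgSub h a < 0) := by
  have hne : (Fintype.piFinset (fun i => powersetCard (a i) (univ : Finset (Fin k)))).Nonempty := by
    rw [Fintype.piFinset_nonempty]
    intro i
    rw [powersetCard_nonempty]
    simpa using ha i
  have hval : ∀ A ∈ Fintype.piFinset (fun i => powersetCard (a i) (univ : Finset (Fin k))),
      comp Φ (norF (K := Fin k)) (ind A) = Φ (fun i => decide (a i = 0)) := by
    intro A hA
    rw [comp_norF_ind]
    congr 1
    funext i
    rw [Fintype.mem_piFinset] at hA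
    rw [(mem_powersetCard.1 (hA i)).2]
  have hpos : (0 : ℝ) < ∏ i, (k.choose (a i) : ℝ) := by
    refine prod_pos fun i _ => ?_
    exact_mod_cast Nat.choose_pos (ha i)
  constructor
  · intro ht
    refine div_pos ?_ hpos
    refine sum_pos (fun A hA => ?_) hne
    exact (hh _).1 (by rw [hval A hA, ht])
  · intro hf
    refine div_neg_of_neg_of_pos ?_ hpos
    rw [← neg_pos]
    unfold sumSub
    rw [← sum_neg_distrib]
    refine sum_pos (fun A hA => ?_) hne
    exact neg_pos.2 ((hh _).2 (by rw [hval A hA, hf]))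

end sym

section alternation

/-- a real polynomial alternating in sign at `0, 1, ..., 2r` has degree at least `2r` -/
lemma natDegree_of_alternates (q : ℝ[X]) (r : ℕ)
    (hneg : ∀ m ≤ r, q.eval ((2 * m : ℕ) : ℝ) < 0)
    (hpos : ∀ m < r, 0 < q.eval ((2 * m + 1 : ℕ) : ℝ)) : 2 * r ≤ q.natDegree := by
  have hq0 : q ≠ 0 := by
    intro h
    have := hneg 0 (Nat.zero_le _)
    rw [h] at this
    simp at this
  have hroot : ∀ s : Fin (2 * r), ∃ x : ℝ, (s : ℝ) < x ∧ x < (s : ℝ) + 1 ∧ q.eval x = 0 := by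
    intro s
    have hcont : ContinuousOn (fun x : ℝ => q.eval x) (Set.Icc (s : ℝ) ((s : ℝ) + 1)) :=
      q.continuous.continuousOn
    have hle : (s : ℝ) ≤ (s : ℝ) + 1 := by linarith
    rcases Nat.even_or_odd (s : ℕ) with he | ho
    · obtain ⟨m, hm⟩ := he
      have hm' : (s : ℕ) = 2 * m := by omega
      have hsr := s.2
      have h1 : q.eval ((s : ℕ) : ℝ) < 0 := by
        rw [hm']; exact hneg m (by omega)
      have h2 : 0 < q.eval (((s : ℕ) : ℝ) + 1) := by
        have := hpos m (by omega)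
        rw [hm']
        push_cast at this ⊢
        exact this
      obtain ⟨x, hx, hx0⟩ := intermediate_value_Ioo hle hcont ⟨h1, h2⟩
      exact ⟨x, hx.1, hx.2, hx0⟩
    · obtain ⟨m, hm⟩ := ho
      have hsr := s.2
      have h1 : 0 < q.eval ((s : ℕ) : ℝ) := by
        rw [hm]; exact hpos m (by omega)
      have h2 : q.eval (((s : ℕ) : ℝ) + 1) < 0 := by
        have := hneg (m + 1) (by omega)
        rw [hm]
        have e : (((2 * m + 1 : ℕ) : ℝ) + 1) = ((2 * (m + 1) : ℕ) : ℝ) := by push_cast; ring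
        rw [e]
        exact this
      obtain ⟨x, hx, hx0⟩ := intermediate_value_Ioo' hle hcont ⟨h2, h1⟩
      exact ⟨x, hx.1, hx.2, hx0⟩
  choose x hx1 hx2 hx3 using hroot
  have hinj : Function.Injective x := by
    intro s s' hss
    have a1 := hx1 s
    have a2 := hx2 s
    have b1 := hx1 s'
    have b2 := hx2 s'
    rw [hss] at a1 a2
    have h1 : (s : ℝ) < (s' : ℝ) + 1 := by linarith
    have h2 : (s' : ℝ) < (s : ℝ) + 1 := by linarith
    have h1' : ((s : ℕ) : ℝ) < ((s' : ℕ) : ℝ) + 1 := h1
    have h2' : ((s' : ℕ) : ℝ) < ((s : ℕ) : ℝ) + 1 := h2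
    have h3 : (s : ℕ) < (s' : ℕ) + 1 := by exact_mod_cast h1'
    have h4 : (s' : ℕ) < (s : ℕ) + 1 := by exact_mod_cast h2'
    exact Fin.ext (by omega)
  calc 2 * r = (univ : Finset (Fin (2 * r))).card := by simp
    _ ≤ q.roots.toFinset.card := by
        refine card_le_card_of_injOn x ?_ (hinj.injOn)
        intro s _
        rw [mem_coe, Multiset.mem_toFinset, mem_roots hq0]
        exact hx3 s
    _ ≤ Multiset.card q.roots := q.roots.toFinset_card_le
    _ ≤ q.natDegree := q.card_roots'

end alternation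

section main

variable {I T : Type*} [Fintype I] [DecidableEq I] [Fintype T] [DecidableEq T] [Nonempty T]

/-- Minsky-Papert for block sensitivity, after the switch gadget -/
theorem degree_of_norF {k r D : ℕ} {Φ : (I → Bool) → Bool} (ι : I → ℕ) (hι : ∀ i, ι i < r)
    (hk : 4 * r ^ 2 ≤ k) (h0 : Φ (fun _ => false) = false)
    (h1 : ∀ m < r, Φ (fun i => decide (ι i = m)) = true)
    {h : (I × Fin k → Bool) → ℝ} (hd : h ∈ degLE (I × Fin k) D)
    (hs : SignRep h (comp Φ (norF (K := Fin k)))) : r ≤ D := by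
  have hcurve : ∀ τ ≤ 2 * r, ∀ i, curve ι τ i ≤ k := by
    intro τ hτ i
    refine le_trans ?_ hk
    unfold curve
    have hi := hι i
    have : Int.natAbs ((τ : ℤ) - (2 * (ι i : ℤ) + 1)) ≤ 2 * r := by omega
    calc (Int.natAbs ((τ : ℤ) - (2 * (ι i : ℤ) + 1))) ^ 2 ≤ (2 * r) ^ 2 :=
          Nat.pow_le_pow_left this 2
      _ = 4 * r ^ 2 := by ring
  obtain ⟨q, hq, he⟩ := exists_poly ι D (2 * r) hcurve hd
  have hz : ∀ τ : ℕ, ∀ i, (curve ι τ i = 0 ↔ τ = 2 * ι i + 1) := by
    intro τ i
    unfold curve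
    rw [pow_eq_zero_iff (by norm_num), Int.natAbs_eq_zero]
    omega
  have halt := natDegree_of_alternates q r ?_ ?_
  · omega
  · intro m hm
    have e := he (2 * m) (by omega)
    rw [e]
    refine (avgSub_sign hs _ (hcurve _ (by omega))).2 ?_
    rw [← h0]
    congr 1
    funext i
    have : ¬ (curve ι (2 * m) i = 0) := by
      rw [hz]; omega
    simp [this]
  · intro m hm
    have e := he (2 * m + 1) (by omega)
    rw [e]
    refine (avgSub_sign hs _ (hcurve _ (by omega))).1 ?_
    rw [← h1 m hm]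
    congr 1
    funext i
    have : (curve ι (2 * m + 1) i = 0) ↔ (ι i = m) := by
      rw [hz]; omega
    simp [this]

/-- **Sign degree lower bound**: block sensitivity at zero of `Φ`, lifted by the switch gadget
and by the code gadget. -/
theorem degree_lower_bound {k r D : ℕ} {Φ : (I → Bool) → Bool} (ι : I → ℕ) (hι : ∀ i, ι i < r)
    (hk : 4 * r ^ 2 ≤ k) (h0 : Φ (fun _ => false) = false)
    (h1 : ∀ m < r, Φ (fun i => decide (ι i = m)) = true)
    {P : (I × (Fin k × (Bool × T)) → Bool) → ℝ} (hd : P ∈ degLE (I × (Fin k × (Bool × T))) D)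
    (hs : SignRep P (comp Φ (comp (norF (K := Fin k)) (codeF (T := T))))) :
    r * Fintype.card T ≤ D := by
  have h := degree_of_norF ι hι hk h0 h1 (avgCode_mem_degLE hd) (avgCode_signRep hs)
  have ht : 0 < Fintype.card T := Fintype.card_pos
  exact (Nat.le_div_iff_mul_le ht).1 h

end main

end Pool.Agent.H53.SD
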