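import Pool.Agent.H53.SD.MP
import Pool.Agent.H53.SD.Gate

/-!
Assembly: the function with sensitivity `≤ 48 p^5` on `256 p^10` bits and sign degree `≥ 4 p^6`.
-/

set_option autoImplicit false

namespace Pool.Agent.H53.SD

open Finset

section assembly

variable (p : ℕ)

/-- index set of the outer function -/
abbrev Idx : Type := Fin p × (Fin p × Bool)

/-- the outer function: some block shows exactly one switched-on pair -/
def outerF : (Idx p → Bool) → Bool := comp (orF (K := Fin p)) (pairF (p := p))

/-- block number of an index -/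
def blk (i : Idx p) : ℕ := i.1.val * p + i.2.1.val

lemma blk_lt (i : Idx p) : blk p i < p ^ 2 := by
  unfold blk
  have h1 := i.1.2
  have h2 := i.2.1.2
  nlinarith

lemma outerF_zero : outerF p (fun _ => false) = false := by
  unfold outerF comp orF
  rw [decide_eq_false_iff_not]
  rintro ⟨i, hi⟩
  rw [pairF_eq_true] at hi
  obtain ⟨j, hj⟩ := hi
  have := hj (j, false)
  simp at this

lemma orF_eq_true {K : Type*} [Fintype K] (z : K → Bool) : orF z = true ↔ ∃ l, z l = true := by
  simp [orF]

lemma outerF_blk (m : ℕ) (hm : m < p ^ 2) : outerF p (fun i => decide (blk p i = m)) = true := by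
  have hp : 0 < p := by
    rcases Nat.eq_zero_or_pos p with h | h
    · subst h; simp at hm
    · exact h
  have ha : m / p < p := by
    rw [Nat.div_lt_iff_lt_mul hp]
    nlinarith
  have hb : m % p < p := Nat.mod_lt _ hp
  unfold outerF comp
  rw [orF_eq_true]
  refine ⟨⟨m / p, ha⟩, ?_⟩
  rw [pairF_eq_true]
  refine ⟨⟨m % p, hb⟩, fun q => ?_⟩
  rw [decide_eq_decide]
  unfold blk
  simp only
  have hdm := Nat.div_add_mod m p
  have hq := q.1.2
  constructor
  · intro h
    apply Fin.ext
    simp only
    have : p * (m / p) + (q.1 : ℕ) = p * (m / p) + m % p := by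
      rw [hdm, mul_comm]
      exact h
    omega
  · intro h
    rw [h]
    simp only
    rw [mul_comm]
    exact hdm

lemma outerF_sens (x : Idx p → Bool) : (sensSet (outerF p) x).card ≤ 2 * p := by
  refine (card_sensSet_or_comp_le (I := Fin p) pairF (c0 := 1) (c1 := 2 * p)
    (fun y hy => pairF_sens_false hy) (fun y => pairF_sens y) x).trans ?_
  rw [Fintype.card_fin]
  exact max_le (by omega) le_rfl

/-- the inner gadget: no cell contains an odd codeword -/
def innerF (k : ℕ) : (Fin k × (Bool × Fin k) → Bool) → Bool :=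
  comp (norF (K := Fin k)) (codeF (T := Fin k))

lemma innerF_sens (k : ℕ) (x : Fin k × (Bool × Fin k) → Bool) :
    (sensSet (innerF k) x).card ≤ 2 * k := by
  have h1 : sensSet (innerF k) x = sensSet (comp (orF (K := Fin k)) (codeF (T := Fin k))) x := by
    ext i
    rw [mem_sensSet, mem_sensSet]
    unfold innerF comp norF
    simp
  rw [h1]
  refine (card_sensSet_or_comp_le (I := Fin k) codeF (c0 := 1) (c1 := 2 * k)
    (fun y hy => codeF_sens_false hy) (fun y => ?_) x).trans ?_
  · have := codeF_sens (T := Fin k) y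
    simpa using this
  · rw [Fintype.card_fin]
    exact max_le (by omega) le_rfl

/-- variables of the middle function -/
abbrev Var : Type := Idx p × (Fin (4 * p ^ 4) × (Bool × Fin (4 * p ^ 4)))

/-- the middle function -/
def midF : (Var p → Bool) → Bool := comp (outerF p) (innerF (4 * p ^ 4))

lemma card_Var : Fintype.card (Var p) = 64 * p ^ 10 := by
  unfold Var Idx
  simp only [Fintype.card_prod, Fintype.card_fin, Fintype.card_bool]
  ring

lemma midF_sens (x : Var p → Bool) : (sensSet (midF p) x).card ≤ 16 * p ^ 5 := by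
  refine (card_sensSet_comp_le_mul (outerF p) (innerF (4 * p ^ 4)) (outerF_sens p)
    (innerF_sens _) x).trans (le_of_eq ?_)
  ring

lemma midF_degree (hp : 1 ≤ p) {D : ℕ} {P : (Var p → Bool) → ℝ} (hP : P ∈ degLE (Var p) D)
    (hs : SignRep P (midF p)) : 4 * p ^ 6 ≤ D := by
  have : Nonempty (Fin (4 * p ^ 4)) := ⟨⟨0, by positivity⟩⟩
  have h := degree_lower_bound (k := 4 * p ^ 4) (r := p ^ 2) (Φ := outerF p)
    (T := Fin (4 * p ^ 4)) (blk p) (blk_lt p) (le_of_eq (by ring)) (outerF_zero p)
    (outerF_blk p) hP hs
  rw [Fintype.card_fin] at h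
  calc 4 * p ^ 6 = p ^ 2 * (4 * p ^ 4) := by ring
    _ ≤ D := h

/-- the full function -/
def fullF : (Var p × (Bool × Bool) → Bool) → Bool := comp (midF p) gadF

lemma card_full : Fintype.card (Var p × (Bool × Bool)) = 256 * p ^ 10 := by
  rw [Fintype.card_prod, card_Var]
  simp only [Fintype.card_prod, Fintype.card_bool]
  ring

lemma fullF_sens (x : Var p × (Bool × Bool) → Bool) :
    (sensSet (fullF p) x).card ≤ 48 * p ^ 5 := by
  refine (card_sensSet_comp_le_mul (midF p) gadF (midF_sens p) gadF_sens x).trans (le_of_eq ?_)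
  ring

end assembly

end Pool.Agent.H53.SD
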