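import Pool.Agent.H53.SD.Par

/-!
A threshold of few generalized monomials (a parity times a conjunction of literals) cannot compute
`F` composed with the lifting gadget when `F` has large sign degree.
-/

set_option autoImplicit false

namespace Pool.Agent.H53.SD

open Finset

/-- generalized monomial: a parity on `T` times the indicator of the conjunction `L` -/
noncomputable def gmon {U : Type*} (T : Finset U) (L : Finset (U × Bool)) (x : U → Bool) : ℝ :=
  chi T x * (if conjF L x = true then 1 else 0)

section mixed

variable {V : Type*} [DecidableEq V]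

/-- effective value of the unselected bits -/
def eff (ρ : V → Bool × Bool × Bool) (q : V → Bool) : V → Bool := fun v =>
  if (ρ v).2.1 then q v else (ρ v).2.2

/-- the restricted input -/
def inp (ρ : V → Bool × Bool × Bool) (q y : V → Bool) : V × (Bool × Bool) → Bool :=
  restP (fun v => (ρ v).1) (eff ρ q) y

lemma comp_gadF_inp (F : (V → Bool) → Bool) (ρ : V → Bool × Bool × Bool) (q y : V → Bool) :
    comp F gadF (inp ρ q y) = F y := comp_gadF_restP F _ _ y

/-- the local choice `s` at block `v` kills the generalized monomial -/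
def KillAt (T : Finset (V × (Bool × Bool))) (L : Finset ((V × (Bool × Bool)) × Bool)) (v : V)
    (s : Bool × Bool × Bool) : Prop :=
  (s.2.1 = false ∧ ((v, (false, !s.1)), !s.2.2) ∈ L) ∨
  (s.2.1 = true ∧ (v, (false, !s.1)) ∈ T ∧ ∀ w, ((v, (false, !s.1)), w) ∉ L)

/-- blocks in which a data bit occurs in `T` or `L` -/
def touchM (T : Finset (V × (Bool × Bool))) (L : Finset ((V × (Bool × Bool)) × Bool)) : Finset V :=
  touchD T ∪ touchD (L.image (fun l => l.1))

lemma mem_touchM (T : Finset (V × (Bool × Bool))) (L : Finset ((V × (Bool × Bool)) × Bool))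
    (v : V) : v ∈ touchM T L ↔
      ∃ a : Bool, (v, (false, a)) ∈ T ∨ ∃ w, ((v, (false, a)), w) ∈ L := by
  unfold touchM
  rw [mem_union, mem_touchD, mem_touchD, ← exists_or]
  refine exists_congr fun a => ?_
  rw [mem_image]
  constructor
  · rintro (h | ⟨⟨q, w⟩, h, rfl⟩)
    · exact Or.inl h
    · exact Or.inr ⟨w, h⟩
  · rintro (h | ⟨w, h⟩)
    · exact Or.inl h
    · exact Or.inr ⟨_, h, rfl⟩

lemma exists_killAt (T : Finset (V × (Bool × Bool))) (L : Finset ((V × (Bool × Bool)) × Bool))
    (v : V) (hv : v ∈ touchM T L) : ∃ s, KillAt T L v s := by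
  obtain ⟨a, h⟩ := (mem_touchM T L v).1 hv
  by_cases hL : ∃ w, ((v, (false, a)), w) ∈ L
  · obtain ⟨w, hw⟩ := hL
    refine ⟨(!a, false, !w), Or.inl ⟨rfl, ?_⟩⟩
    simpa using hw
  · rcases h with h | h
    · refine ⟨(!a, true, false), Or.inr ⟨rfl, ?_, ?_⟩⟩
      · simpa using h
      · intro w hw
        apply hL
        exact ⟨w, by simpa using hw⟩
    · exact absurd h hL

variable [Fintype V]

/-- restrictions that do not kill the generalized monomial -/
noncomputable def survM (T : Finset (V × (Bool × Bool)))
    (L : Finset ((V × (Bool × Bool)) × Bool)) : Finset (V → Bool × Bool × Bool) := by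
  classical
  exact univ.filter (fun ρ => ∀ v, ¬ KillAt T L v (ρ v))

lemma card_survM_le (T : Finset (V × (Bool × Bool)))
    (L : Finset ((V × (Bool × Bool)) × Bool)) :
    ((survM T L).card : ℝ) ≤ 8 ^ (Fintype.card V) * (7 / 8 : ℝ) ^ (touchM T L).card := by
  classical
  set Ω : V → Finset (Bool × Bool × Bool) := fun v =>
    univ.filter (fun s => ¬ KillAt T L v s) with hΩ
  have hsub : survM T L ⊆ Fintype.piFinset Ω := by
    intro ρ hρ
    unfold survM at hρ
    rw [mem_filter] at hρ
    rw [Fintype.mem_piFinset]
    intro v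
    rw [hΩ]
    simp only
    rw [mem_filter]
    exact ⟨mem_univ _, hρ.2 v⟩
  have hcard : ((Fintype.piFinset Ω).card : ℝ)
      ≤ ∏ v : V, (8 * (if v ∈ touchM T L then 7 / 8 else 1)) := by
    rw [Fintype.card_piFinset]
    push_cast
    refine prod_le_prod (fun v _ => by positivity) fun v _ => ?_
    have h8 : (univ : Finset (Bool × Bool × Bool)).card = 8 := by decide
    rw [hΩ]
    simp only
    split_ifs with hv
    · obtain ⟨s, hs⟩ := exists_killAt T L v hv
      have hlt : (univ.filter (fun s => ¬ KillAt T L v s)).card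
          < (univ : Finset (Bool × Bool × Bool)).card := by
        refine card_lt_card ⟨filter_subset _ _, fun hsub' => ?_⟩
        have := hsub' (mem_univ s)
        rw [mem_filter] at this
        exact this.2 hs
      rw [h8] at hlt
      have h' : ((univ.filter (fun s => ¬ KillAt T L v s)).card : ℝ) ≤ 7 := by
        exact_mod_cast Nat.lt_succ_iff.1 hlt
      linarith
    · have h1 : (univ.filter (fun s => ¬ KillAt T L v s)).card ≤ 8 := by
        rw [← h8]
        exact card_le_card (filter_subset _ _)
      have h' : ((univ.filter (fun s => ¬ KillAt T L v s)).card : ℝ) ≤ 8 := by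
        exact_mod_cast h1
      linarith
  have hprod : ∏ v : V, ((8 : ℝ) * (if v ∈ touchM T L then 7 / 8 else 1))
      = 8 ^ (Fintype.card V) * (7 / 8 : ℝ) ^ (touchM T L).card := by
    rw [prod_mul_distrib, prod_const, card_univ]
    congr 1
    rw [Finset.prod_ite_mem, univ_inter, prod_const]
  calc ((survM T L).card : ℝ) ≤ ((Fintype.piFinset Ω).card : ℝ) := by
        exact_mod_cast card_le_card hsub
    _ ≤ _ := hcard
    _ = _ := hprod

omit [Fintype V] [DecidableEq V] in
lemma inp_unsel (ρ : V → Bool × Bool × Bool) (q y : V → Bool) (v : V) :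
    inp ρ q y (v, (false, !(ρ v).1)) = eff ρ q v := by
  unfold inp restP rest
  simp

lemma sum_gmon_eq_zero (T : Finset (V × (Bool × Bool)))
    (L : Finset ((V × (Bool × Bool)) × Bool)) (ρ : V → Bool × Bool × Bool) (y : V → Bool)
    (v : V) (hv : KillAt T L v (ρ v)) : ∑ q : V → Bool, gmon T L (inp ρ q y) = 0 := by
  rcases hv with ⟨h1, h2⟩ | ⟨h1, h2, h3⟩
  · refine sum_eq_zero fun q _ => ?_
    unfold gmon
    rw [if_neg, mul_zero]
    rw [conjF_eq_true]
    intro h
    have h' := h _ h2
    simp only [inp_unsel] at h'
    unfold eff at h'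
    rw [h1] at h'
    simp at h'
  · have hflip : ∀ q : V → Bool, gmon T L (inp ρ (flip q v) y) = - gmon T L (inp ρ q y) := by
      intro q
      have hne : ∀ p : V × (Bool × Bool), p ≠ (v, (false, !(ρ v).1)) →
          inp ρ (flip q v) y p = inp ρ q y p := by
        rintro ⟨u, c, a⟩ hp
        unfold inp restP rest eff
        by_cases hu : u = v
        · subst hu
          cases c
          · have hab : a = (ρ u).1 := by
              by_contra hab
              apply hp
              congr 2
              revert hab
              cases a <;> cases (ρ u).1 <;> simp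
            simp [hab]
          · simp
        · simp [flip_ne q hu]
      have hconj : conjF L (inp ρ (flip q v) y) = conjF L (inp ρ q y) := by
        unfold conjF
        rw [decide_eq_decide]
        refine forall₂_congr fun l hl => ?_
        rw [hne]
        intro hl1
        apply h3 l.2
        rw [← hl1]
        exact hl
      have hchi : chi T (inp ρ (flip q v) y) = - chi T (inp ρ q y) := by
        unfold chi
        rw [← mul_prod_erase T (fun p => cs (inp ρ q y p)) h2,
          ← mul_prod_erase T (fun p => cs (inp ρ (flip q v) y p)) h2]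
        have e1 : cs (inp ρ (flip q v) y (v, (false, !(ρ v).1)))
            = - cs (inp ρ q y (v, (false, !(ρ v).1))) := by
          rw [inp_unsel, inp_unsel]
          unfold eff
          rw [h1]
          simp only [if_true, flip_same]
          cases q v <;> simp [cs]
        have e2 : ∏ p ∈ T.erase (v, (false, !(ρ v).1)), cs (inp ρ (flip q v) y p)
            = ∏ p ∈ T.erase (v, (false, !(ρ v).1)), cs (inp ρ q y p) := by
          refine prod_congr rfl fun p hp => ?_
          rw [hne p (ne_of_mem_erase hp)]
        rw [e1, e2]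
        ring
      unfold gmon
      rw [hconj, hchi]
      ring
    have h1 : ∑ q : V → Bool, gmon T L (inp ρ q y) = ∑ q : V → Bool, -gmon T L (inp ρ q y) := by
      refine Fintype.sum_equiv ⟨fun r => flip r v, fun r => flip r v, ?_, ?_⟩ _ _ ?_
      · intro r
        funext u
        show flip (flip r v) v u = r u
        by_cases hu : u = v
        · subst hu; simp
        · rw [flip_ne _ hu, flip_ne _ hu]
      · intro r
        funext u
        show flip (flip r v) v u = r u
        by_cases hu : u = v
        · subst hu; simp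
        · rw [flip_ne _ hu, flip_ne _ hu]
      · intro r
        simp only [Equiv.coe_fn_mk]
        rw [hflip, neg_neg]
    rw [sum_neg_distrib] at h1
    linarith

lemma isJunta_gmon (T : Finset (V × (Bool × Bool)))
    (L : Finset ((V × (Bool × Bool)) × Bool)) (ρ : V → Bool × Bool × Bool) (q : V → Bool) :
    IsJunta (touchM T L) (fun y => gmon T L (inp ρ q y)) := by
  intro x y hxy
  have key : ∀ p : V × (Bool × Bool), (p ∈ T ∨ ∃ w, (p, w) ∈ L) → inp ρ q x p = inp ρ q y p := by
    rintro ⟨u, c, a⟩ hp
    unfold inp restP rest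
    cases c
    · have hu : u ∈ touchM T L := (mem_touchM T L u).2 ⟨a, hp⟩
      simp [hxy u hu]
    · simp
  have h1 : chi T (inp ρ q x) = chi T (inp ρ q y) := by
    unfold chi
    refine prod_congr rfl fun p hp => ?_
    rw [key p (Or.inl hp)]
  have h2 : conjF L (inp ρ q x) = conjF L (inp ρ q y) := by
    unfold conjF
    rw [decide_eq_decide]
    refine forall₂_congr fun l hl => ?_
    rw [key l.1 (Or.inr ⟨l.2, hl⟩)]
  simp only [gmon, h1, h2]

/-- the generalized monomials of a family that touch at least `d` blocks -/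
noncomputable def wide {J : Type*} [Fintype J] (T : J → Finset (V × (Bool × Bool)))
    (L : J → Finset ((V × (Bool × Bool)) × Bool)) (d : ℕ) : Finset J :=
  univ.filter (fun j => d ≤ (touchM (T j) (L j)).card)

/-- **Thresholds of generalized monomials.** -/
theorem mixed_lower_bound (F : (V → Bool) → Bool) (d : ℕ)
    (hF : ∀ D, ∀ P ∈ degLE V D, SignRep P F → d ≤ D) (hd : 0 < d)
    {J : Type*} [Fintype J] (T : J → Finset (V × (Bool × Bool)))
    (L : J → Finset ((V × (Bool × Bool)) × Bool)) (c : J → ℝ) (θ : ℝ)
    (hf : ∀ x, comp F gadF x = decide (θ ≤ ∑ j, c j * gmon (T j) (L j) x)) :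
    (8 / 7 : ℝ) ^ d ≤ (wide T L d).card := by
  classical
  by_contra hcon
  push Not at hcon
  set bad : Finset J := wide T L d with hbad0
  have hbad : bad = univ.filter (fun j => d ≤ (touchM (T j) (L j)).card) := rfl
  have hex : ∃ ρ : V → Bool × Bool × Bool, ∀ j ∈ bad, ρ ∉ survM (T j) (L j) := by
    by_contra hno
    push Not at hno
    have hcover : (univ : Finset (V → Bool × Bool × Bool)) ⊆
        bad.biUnion (fun j => survM (T j) (L j)) := by
      intro b _
      obtain ⟨j, hj, hb⟩ := hno b
      exact mem_biUnion.2 ⟨j, hj, hb⟩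
    have h1 : (8 : ℝ) ^ (Fintype.card V) ≤ ∑ j ∈ bad, ((survM (T j) (L j)).card : ℝ) := by
      have h2 := (card_le_card hcover).trans card_biUnion_le
      have h3 : (univ : Finset (V → Bool × Bool × Bool)).card = 8 ^ (Fintype.card V) := by
        rw [card_univ, Fintype.card_fun]
        rfl
      rw [h3] at h2
      exact_mod_cast h2
    have h4 : ∑ j ∈ bad, ((survM (T j) (L j)).card : ℝ)
        ≤ ∑ _j ∈ bad, (8 : ℝ) ^ (Fintype.card V) * (7 / 8 : ℝ) ^ d := by
      refine sum_le_sum fun j hj => (card_survM_le (T j) (L j)).trans ?_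
      refine mul_le_mul_of_nonneg_left ?_ (by positivity)
      rw [hbad] at hj
      exact pow_le_pow_of_le_one (by norm_num) (by norm_num) (mem_filter.1 hj).2
    have h5 : ∑ _j ∈ bad, (8 : ℝ) ^ (Fintype.card V) * (7 / 8 : ℝ) ^ d
        = bad.card * ((8 : ℝ) ^ (Fintype.card V) * (7 / 8 : ℝ) ^ d) := by
      rw [sum_const, nsmul_eq_mul]
    have h6 : (bad.card : ℝ) * (7 / 8 : ℝ) ^ d < 1 := by
      have e : (8 / 7 : ℝ) ^ d * (7 / 8 : ℝ) ^ d = 1 := by
        rw [← mul_pow]; norm_num
      calc (bad.card : ℝ) * (7 / 8 : ℝ) ^ d < (8 / 7 : ℝ) ^ d * (7 / 8 : ℝ) ^ d :=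
            mul_lt_mul_of_pos_right hcon (by positivity)
        _ = 1 := e
    have h7 : (0 : ℝ) < 8 ^ (Fintype.card V) := by positivity
    have h8 : (8 : ℝ) ^ (Fintype.card V) ≤ 8 ^ (Fintype.card V) * (bad.card * (7 / 8 : ℝ) ^ d) := by
      calc (8 : ℝ) ^ (Fintype.card V) ≤ bad.card * ((8 : ℝ) ^ (Fintype.card V) * (7 / 8 : ℝ) ^ d) :=
            h1.trans (h4.trans (le_of_eq h5))
        _ = _ := by ring
    have h9 : (8 : ℝ) ^ (Fintype.card V) * (bad.card * (7 / 8 : ℝ) ^ d)
        < 8 ^ (Fintype.card V) * 1 :=
      mul_lt_mul_of_pos_left h6 h7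
    linarith
  obtain ⟨ρ, hρ⟩ := hex
  obtain ⟨θ', hθ1, hθ2⟩ := exists_strict_threshold (fun x => ∑ j, c j * gmon (T j) (L j) x) θ
  set P : (V → Bool) → ℝ := fun y =>
    ∑ q : V → Bool, (∑ j, c j * gmon (T j) (L j) (inp ρ q y) - θ') with hP
  have hPdeg : P ∈ degLE V (d - 1) := by
    have e : P = (∑ j, c j • (fun y : V → Bool => ∑ q : V → Bool, gmon (T j) (L j) (inp ρ q y)))
        + (fun _ => -∑ _r : V → Bool, θ') := by
      funext y
      simp only [hP, Pi.add_apply, Finset.sum_apply, Pi.smul_apply, smul_eq_mul]
      rw [sum_sub_distrib, sum_comm, sub_eq_add_neg]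
      congr 1
      refine sum_congr rfl fun j _ => ?_
      rw [mul_sum]
    rw [e]
    refine Submodule.add_mem _ (Submodule.sum_mem _ fun j _ => ?_) ?_
    · refine Submodule.smul_mem _ _ ?_
      by_cases hj : j ∈ bad
      · have hz : (fun y : V → Bool => ∑ q : V → Bool, gmon (T j) (L j) (inp ρ q y)) = 0 := by
          funext y
          have := hρ j hj
          unfold survM at this
          rw [mem_filter, not_and] at this
          have h' := this (mem_univ _)
          push Not at h'
          obtain ⟨v, hv⟩ := h'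
          exact sum_gmon_eq_zero (T j) (L j) ρ y v hv
        rw [hz]
        exact Submodule.zero_mem _
      · apply Submodule.subset_span
        refine ⟨touchM (T j) (L j), ?_, ?_⟩
        · rw [hbad, mem_filter, not_and, not_le] at hj
          have := hj (mem_univ _)
          omega
        · intro x y hxy
          refine sum_congr rfl fun q _ => ?_
          exact isJunta_gmon (T j) (L j) ρ q x y hxy
    · apply Submodule.subset_span
      exact ⟨∅, by simp, fun _ _ _ => rfl⟩
  have hPs : SignRep P F := by
    intro y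
    have hne : (univ : Finset (V → Bool)).Nonempty := ⟨fun _ => false, mem_univ _⟩
    constructor
    · intro hy
      refine sum_pos (fun r _ => ?_) hne
      have h1 := hf (inp ρ r y)
      rw [comp_gadF_inp, hy] at h1
      have h2 := of_decide_eq_true h1.symm
      have := hθ1 _ h2
      linarith
    · intro hy
      rw [← neg_pos, hP]
      simp only
      rw [← sum_neg_distrib]
      refine sum_pos (fun r _ => ?_) hne
      have h1 := hf (inp ρ r y)
      rw [comp_gadF_inp, hy] at h1
      have h2 := of_decide_eq_false h1.symm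
      push Not at h2
      have := hθ2 _ h2
      linarith
  have := hF (d - 1) P hPdeg hPs
  omega

end mixed

end Pool.Agent.H53.SD
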