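import Pool.Agent.H53.SD.Conj
import Pool.Agent.H53.SD.Fourier

/-!
A threshold of few parities cannot compute `F` composed with the lifting gadget when `F` has large
sign degree.
-/

set_option autoImplicit false

namespace Pool.Agent.H53.SD

open Finset

section parities

variable {V : Type*}

/-- input with selector `b`, trivial mask, unselected bits `r` and selected bits `y` -/
def restP (b r y : V → Bool) : V × (Bool × Bool) → Bool := rest (fun v => (b v, false, r v)) y

lemma comp_gadF_restP (F : (V → Bool) → Bool) (b r y : V → Bool) :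
    comp F gadF (restP b r y) = F y := comp_gadF_rest F _ y

variable [DecidableEq V]

/-- blocks in which `T` contains a data bit -/
def touchD (T : Finset (V × (Bool × Bool))) : Finset V :=
  (T.filter (fun q => q.2.1 = false)).image (fun q => q.1)

lemma mem_touchD (T : Finset (V × (Bool × Bool))) (v : V) :
    v ∈ touchD T ↔ ∃ a : Bool, (v, (false, a)) ∈ T := by
  unfold touchD
  rw [mem_image]
  constructor
  · rintro ⟨⟨u, c, a⟩, h, hu⟩
    rw [mem_filter] at h
    obtain ⟨h1, h2⟩ := h
    simp only at h2 hu
    subst h2
    subst hu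
    exact ⟨a, h1⟩
  · rintro ⟨a, ha⟩
    exact ⟨(v, (false, a)), by rw [mem_filter]; exact ⟨ha, rfl⟩, rfl⟩

variable [Fintype V]

/-- summing over an unselected bit that occurs in `T` kills the parity -/
lemma sum_chi_restP_eq_zero (T : Finset (V × (Bool × Bool))) (b y : V → Bool) (v : V)
    (hv : (v, (false, !b v)) ∈ T) : ∑ r : V → Bool, chi T (restP b r y) = 0 := by
  have h1 : ∑ r : V → Bool, chi T (restP b r y) = ∑ r : V → Bool, -chi T (restP b r y) := by
    refine Fintype.sum_equiv ⟨fun r => flip r v, fun r => flip r v, ?_, ?_⟩ _ _ ?_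
    · intro r
      funext u
      show flip (flip r v) v u = r u
      by_cases hu : u = v
      · subst hu; simp
      · rw [flip_ne _ hu, flip_ne _ hu]
    · intro r
      funext u
      show flip (flip r v) v u = r u
      by_cases hu : u = v
      · subst hu; simp
      · rw [flip_ne _ hu, flip_ne _ hu]
    · intro r
      simp only [Equiv.coe_fn_mk]
      unfold chi
      rw [← mul_prod_erase T _ hv, ← mul_prod_erase T (fun q => cs (restP b (flip r v) y q)) hv]
      have e1 : cs (restP b (flip r v) y (v, (false, !b v)))
          = - cs (restP b r y (v, (false, !b v))) := by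
        unfold restP rest
        simp only [flip_same]
        cases b v <;> cases r v <;> simp [cs]
      have e2 : ∏ q ∈ T.erase (v, (false, !b v)), cs (restP b (flip r v) y q)
          = ∏ q ∈ T.erase (v, (false, !b v)), cs (restP b r y q) := by
        refine prod_congr rfl fun q hq => ?_
        congr 1
        rw [mem_erase] at hq
        obtain ⟨u, c, a⟩ := q
        unfold restP rest
        simp only
        by_cases hu : u = v
        · subst hu
          cases c
          · have : a = b u := by
              by_contra hne
              apply hq.1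
              congr 2
              revert hne
              cases a <;> cases b u <;> simp
            simp [this]
          · simp
        · rw [flip_ne _ hu]
      rw [e1, e2]
      ring
  rw [sum_neg_distrib] at h1
  linarith

lemma isJunta_chi_restP (T : Finset (V × (Bool × Bool))) (b r : V → Bool) :
    IsJunta (touchD T) (fun y => chi T (restP b r y)) := by
  intro x y hxy
  simp only
  unfold chi
  refine prod_congr rfl fun q hq => ?_
  congr 1
  obtain ⟨u, c, a⟩ := q
  unfold restP rest
  simp only
  cases c
  · have : u ∈ touchD T := (mem_touchD T u).2 ⟨a, hq⟩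
    simp only [Bool.false_eq_true, if_false]
    rw [hxy u this]
  · simp

/-- selectors for which no unselected bit occurs in `T` -/
noncomputable def surv (T : Finset (V × (Bool × Bool))) : Finset (V → Bool) := by
  classical
  exact univ.filter (fun b => ∀ v, (v, (false, !b v)) ∉ T)

lemma card_surv_le (T : Finset (V × (Bool × Bool))) :
    ((surv T).card : ℝ) ≤ 2 ^ (Fintype.card V) * (1 / 2 : ℝ) ^ (touchD T).card := by
  classical
  have hch : ∀ v : V, ∃ a : Bool, v ∈ touchD T → (v, (false, a)) ∈ T := by
    intro v
    by_cases hv : v ∈ touchD T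
    · obtain ⟨a, ha⟩ := (mem_touchD T v).1 hv
      exact ⟨a, fun _ => ha⟩
    · exact ⟨false, fun h => absurd h hv⟩
  choose a ha using hch
  have hsub : surv T ⊆ Fintype.piFinset
      (fun v => if v ∈ touchD T then {a v} else (univ : Finset Bool)) := by
    intro b hb
    unfold surv at hb
    rw [mem_filter] at hb
    rw [Fintype.mem_piFinset]
    intro v
    split_ifs with hv
    · rw [mem_singleton]
      by_contra hne
      have h1 := hb.2 v
      have h2 : (!b v) = a v := by
        revert hne
        cases b v <;> cases a v <;> simp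
      rw [h2] at h1
      exact h1 (ha v hv)
    · exact mem_univ _
  have hcard : ((Fintype.piFinset
      (fun v => if v ∈ touchD T then {a v} else (univ : Finset Bool))).card : ℝ)
      = 2 ^ (Fintype.card V) * (1 / 2 : ℝ) ^ (touchD T).card := by
    rw [Fintype.card_piFinset]
    push_cast
    have e : (1 / 2 : ℝ) ^ (touchD T).card = ∏ v : V, (if v ∈ touchD T then (1 / 2 : ℝ) else 1) := by
      rw [Finset.prod_ite_mem, univ_inter, prod_const]
    have e2 : (2 : ℝ) ^ (Fintype.card V) = ∏ _v : V, (2 : ℝ) := by
      rw [prod_const, card_univ]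
    rw [e, e2, ← prod_mul_distrib]
    refine prod_congr rfl fun v _ => ?_
    split_ifs <;> simp
  rw [← hcard]
  exact_mod_cast card_le_card hsub

/-- **Thresholds of parities.** -/
theorem parity_lower_bound (F : (V → Bool) → Bool) (d : ℕ)
    (hF : ∀ D, ∀ P ∈ degLE V D, SignRep P F → d ≤ D) (hd : 0 < d)
    (M : ℕ) (T : Fin M → Finset (V × (Bool × Bool))) (c : Fin M → ℝ) (θ : ℝ)
    (hf : ∀ x, comp F gadF x = decide (θ ≤ ∑ j, c j * chi (T j) x)) :
    (2 : ℝ) ^ d ≤ M := by
  classical
  by_contra hcon
  push Not at hcon
  set bad : Finset (Fin M) := univ.filter (fun j => d ≤ (touchD (T j)).card) with hbad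
  have hex : ∃ b : V → Bool, ∀ j ∈ bad, b ∉ surv (T j) := by
    by_contra hno
    push Not at hno
    have hcover : (univ : Finset (V → Bool)) ⊆ bad.biUnion (fun j => surv (T j)) := by
      intro b _
      obtain ⟨j, hj, hb⟩ := hno b
      exact mem_biUnion.2 ⟨j, hj, hb⟩
    have h1 : (2 : ℝ) ^ (Fintype.card V) ≤ ∑ j ∈ bad, ((surv (T j)).card : ℝ) := by
      have h2 := (card_le_card hcover).trans card_biUnion_le
      have h3 : (univ : Finset (V → Bool)).card = 2 ^ (Fintype.card V) := by
        rw [card_univ, Fintype.card_fun]
        rfl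
      rw [h3] at h2
      exact_mod_cast h2
    have h4 : ∑ j ∈ bad, ((surv (T j)).card : ℝ)
        ≤ ∑ _j ∈ bad, (2 : ℝ) ^ (Fintype.card V) * (1 / 2 : ℝ) ^ d := by
      refine sum_le_sum fun j hj => (card_surv_le (T j)).trans ?_
      refine mul_le_mul_of_nonneg_left ?_ (by positivity)
      exact pow_le_pow_of_le_one (by norm_num) (by norm_num) (mem_filter.1 hj).2
    have h5 : ∑ _j ∈ bad, (2 : ℝ) ^ (Fintype.card V) * (1 / 2 : ℝ) ^ d
        ≤ M * ((2 : ℝ) ^ (Fintype.card V) * (1 / 2 : ℝ) ^ d) := by
      rw [sum_const, nsmul_eq_mul]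
      refine mul_le_mul_of_nonneg_right ?_ (by positivity)
      have : bad.card ≤ M := by simpa using card_le_univ bad
      exact_mod_cast this
    have h6 : (M : ℝ) * (1 / 2 : ℝ) ^ d < 1 := by
      have e : (2 : ℝ) ^ d * (1 / 2 : ℝ) ^ d = 1 := by
        rw [← mul_pow]; norm_num
      calc (M : ℝ) * (1 / 2 : ℝ) ^ d < (2 : ℝ) ^ d * (1 / 2 : ℝ) ^ d :=
            mul_lt_mul_of_pos_right hcon (by positivity)
        _ = 1 := e
    have h7 : (0 : ℝ) < 2 ^ (Fintype.card V) := by positivity
    have h8 : (2 : ℝ) ^ (Fintype.card V) ≤ 2 ^ (Fintype.card V) * (M * (1 / 2 : ℝ) ^ d) := by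
      calc (2 : ℝ) ^ (Fintype.card V) ≤ M * ((2 : ℝ) ^ (Fintype.card V) * (1 / 2 : ℝ) ^ d) :=
            h1.trans (h4.trans h5)
        _ = _ := by ring
    have h9 : (2 : ℝ) ^ (Fintype.card V) * (M * (1 / 2 : ℝ) ^ d) < 2 ^ (Fintype.card V) * 1 :=
      mul_lt_mul_of_pos_left h6 h7
    linarith
  obtain ⟨b, hb⟩ := hex
  obtain ⟨θ', hθ1, hθ2⟩ := exists_strict_threshold (fun x => ∑ j, c j * chi (T j) x) θ
  set P : (V → Bool) → ℝ := fun y =>
    ∑ r : V → Bool, (∑ j, c j * chi (T j) (restP b r y) - θ') with hP
  have hPdeg : P ∈ degLE V (d - 1) := by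
    have e : P = (∑ j, c j • (fun y : V → Bool => ∑ r : V → Bool, chi (T j) (restP b r y)))
        + (fun _ => -∑ _r : V → Bool, θ') := by
      funext y
      simp only [hP, Pi.add_apply, Finset.sum_apply, Pi.smul_apply, smul_eq_mul]
      rw [sum_sub_distrib, sum_comm, sub_eq_add_neg]
      congr 1
      refine sum_congr rfl fun j _ => ?_
      rw [mul_sum]
    rw [e]
    refine Submodule.add_mem _ (Submodule.sum_mem _ fun j _ => ?_) ?_
    · refine Submodule.smul_mem _ _ ?_
      by_cases hj : j ∈ bad
      · have hz : (fun y : V → Bool => ∑ r : V → Bool, chi (T j) (restP b r y)) = 0 := by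
          funext y
          have := hb j hj
          unfold surv at this
          rw [mem_filter, not_and] at this
          have h' := this (mem_univ _)
          push Not at h'
          obtain ⟨v, hv⟩ := h'
          exact sum_chi_restP_eq_zero (T j) b y v hv
        rw [hz]
        exact Submodule.zero_mem _
      · apply Submodule.subset_span
        refine ⟨touchD (T j), ?_, ?_⟩
        · rw [hbad, mem_filter, not_and, not_le] at hj
          have := hj (mem_univ _)
          omega
        · intro x y hxy
          refine sum_congr rfl fun r _ => ?_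
          exact isJunta_chi_restP (T j) b r x y hxy
    · apply Submodule.subset_span
      exact ⟨∅, by simp, fun _ _ _ => rfl⟩
  have hPs : SignRep P F := by
    intro y
    have hne : (univ : Finset (V → Bool)).Nonempty := ⟨fun _ => false, mem_univ _⟩
    constructor
    · intro hy
      refine sum_pos (fun r _ => ?_) hne
      have h1 := hf (restP b r y)
      rw [comp_gadF_restP, hy] at h1
      have h2 := of_decide_eq_true h1.symm
      have := hθ1 _ h2
      linarith
    · intro hy
      rw [← neg_pos, hP]
      simp only
      rw [← sum_neg_distrib]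
      refine sum_pos (fun r _ => ?_) hne
      have h1 := hf (restP b r y)
      rw [comp_gadF_restP, hy] at h1
      have h2 := of_decide_eq_false h1.symm
      push Not at h2
      have := hθ2 _ h2
      linarith
  have := hF (d - 1) P hPdeg hPs
  omega

end parities

end Pool.Agent.H53.SD
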