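import Mathlib

/-!
Sensitivity of compositions; the building blocks of the low-sensitivity function with large
sign degree (MP_671030_lc).
-/

set_option autoImplicit false

namespace Pool.Agent.H53.SD

open Finset

/-- flip the bit `i` of `x` -/
def flip {ι : Type*} [DecidableEq ι] (x : ι → Bool) (i : ι) : ι → Bool :=
  Function.update x i (!x i)

/-- the set of sensitive coordinates of `f` at `x` -/
def sensSet {ι : Type*} [Fintype ι] [DecidableEq ι] (f : (ι → Bool) → Bool) (x : ι → Bool) :
    Finset ι :=
  univ.filter (fun i => f (flip x i) ≠ f x)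

/-- composition: one copy of `g` for every input bit of `f` -/
def comp {I J : Type*} (f : (I → Bool) → Bool) (g : (J → Bool) → Bool) : (I × J → Bool) → Bool :=
  fun x => f (fun i => g (fun j => x (i, j)))

/-- the disjunction of all bits -/
def orF {K : Type*} [Fintype K] (z : K → Bool) : Bool := decide (∃ l, z l = true)

/-- the negated disjunction of all bits -/
def norF {K : Type*} [Fintype K] (z : K → Bool) : Bool := !orF z

section basic

variable {ι : Type*} [DecidableEq ι]

@[simp] lemma flip_same (x : ι → Bool) (i : ι) : flip x i i = !x i := by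
  simp [flip]

lemma flip_ne (x : ι → Bool) {i j : ι} (h : j ≠ i) : flip x i j = x j := by
  simp [flip, Function.update_of_ne h]

lemma mem_sensSet [Fintype ι] (f : (ι → Bool) → Bool) (x : ι → Bool) (i : ι) :
    i ∈ sensSet f x ↔ f (flip x i) ≠ f x := by
  simp [sensSet]

end basic

section composition

variable {I J : Type*} [Fintype I] [DecidableEq I] [Fintype J] [DecidableEq J]

lemma row_flip_same (x : I × J → Bool) (i : I) (j : J) :
    (fun j' => flip x (i, j) (i, j')) = flip (fun j' => x (i, j')) j := by
  funext j'
  by_cases h : j' = j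
  · subst h; simp
  · rw [flip_ne _ h, flip_ne]
    intro h'
    exact h (by simpa using h')

lemma row_flip_ne (x : I × J → Bool) {i i' : I} (j : J) (h : i' ≠ i) :
    (fun j' => flip x (i, j) (i', j')) = (fun j' => x (i', j')) := by
  funext j'
  rw [flip_ne]
  intro h'
  exact h (by simpa using congrArg Prod.fst h')

lemma comp_flip (f : (I → Bool) → Bool) (g : (J → Bool) → Bool) (x : I × J → Bool) (i : I) (j : J)
    (hs : comp f g (flip x (i, j)) ≠ comp f g x) :
    i ∈ sensSet f (fun i => g (fun j => x (i, j))) ∧ j ∈ sensSet g (fun j => x (i, j)) := by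
  have hg : g (flip (fun j' => x (i, j')) j) ≠ g (fun j' => x (i, j')) := by
    intro hg
    apply hs
    unfold comp
    congr 1
    funext i'
    by_cases h : i' = i
    · subst h; rw [row_flip_same, hg]
    · rw [row_flip_ne _ _ h]
  refine ⟨?_, (mem_sensSet _ _ _).2 hg⟩
  rw [mem_sensSet]
  have : (fun i' => g (fun j' => flip x (i, j) (i', j')))
      = flip (fun i' => g (fun j' => x (i', j'))) i := by
    funext i'
    by_cases h : i' = i
    · subst h
      rw [row_flip_same, flip_same]
      revert hg
      cases g (flip (fun j' => x (i', j')) j) <;> cases g (fun j' => x (i', j')) <;> simp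
    · rw [row_flip_ne _ _ h, flip_ne _ h]
  intro h'
  apply hs
  unfold comp
  rw [this]
  exact h'

lemma card_sensSet_comp_le (f : (I → Bool) → Bool) (g : (J → Bool) → Bool) (x : I × J → Bool) :
    (sensSet (comp f g) x).card ≤
      ∑ i ∈ sensSet f (fun i => g (fun j => x (i, j))), (sensSet g (fun j => x (i, j))).card := by
  classical
  have hsub : sensSet (comp f g) x ⊆
      (sensSet f (fun i => g (fun j => x (i, j)))).biUnion
        (fun i => (sensSet g (fun j => x (i, j))).image (fun j => (i, j))) := by
    rintro ⟨i, j⟩ hij
    rw [mem_sensSet] at hij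
    obtain ⟨h1, h2⟩ := comp_flip f g x i j hij
    exact mem_biUnion.2 ⟨i, h1, mem_image.2 ⟨j, h2, rfl⟩⟩
  refine (card_le_card hsub).trans (card_biUnion_le.trans ?_)
  exact sum_le_sum fun i _ => card_image_le

lemma card_sensSet_comp_le_mul (f : (I → Bool) → Bool) (g : (J → Bool) → Bool) {a b : ℕ}
    (ha : ∀ z, (sensSet f z).card ≤ a) (hb : ∀ y, (sensSet g y).card ≤ b) (x : I × J → Bool) :
    (sensSet (comp f g) x).card ≤ a * b := by
  refine (card_sensSet_comp_le f g x).trans ?_
  calc ∑ i ∈ sensSet f (fun i => g (fun j => x (i, j))), (sensSet g (fun j => x (i, j))).card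
      ≤ ∑ _i ∈ sensSet f (fun i => g (fun j => x (i, j))), b := sum_le_sum fun i _ => hb _
    _ = (sensSet f (fun i => g (fun j => x (i, j)))).card * b := by simp
    _ ≤ a * b := Nat.mul_le_mul_right _ (ha _)

lemma sensSet_orF_card_le_one {z : I → Bool} (hz : orF z = true) : (sensSet orF z).card ≤ 1 := by
  rw [card_le_one]
  have key : ∀ i ∈ sensSet orF z, ∀ l, z l = true → l = i := by
    intro i hi l hl
    rw [mem_sensSet, hz] at hi
    by_contra hne
    apply hi
    simp only [orF, decide_eq_true_eq]
    exact ⟨l, by rw [flip_ne _ hne, hl]⟩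
  intro i hi i' hi'
  obtain ⟨l, hl⟩ : ∃ l, z l = true := by simpa [orF] using hz
  rw [← key i hi l hl, ← key i' hi' l hl]

/-- sensitivity of a disjunction of copies of `g` -/
lemma card_sensSet_or_comp_le (g : (J → Bool) → Bool) {c0 c1 : ℕ}
    (h0 : ∀ y, g y = false → (sensSet g y).card ≤ c0) (h1 : ∀ y, (sensSet g y).card ≤ c1)
    (x : I × J → Bool) :
    (sensSet (comp (orF (K := I)) g) x).card ≤ max (Fintype.card I * c0) c1 := by
  refine (card_sensSet_comp_le _ g x).trans ?_
  by_cases hz : orF (fun i => g (fun j => x (i, j))) = true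
  · refine le_trans ?_ (le_max_right _ _)
    calc ∑ i ∈ sensSet orF (fun i => g (fun j => x (i, j))), (sensSet g (fun j => x (i, j))).card
        ≤ ∑ _i ∈ sensSet orF (fun i => g (fun j => x (i, j))), c1 := sum_le_sum fun i _ => h1 _
      _ = (sensSet orF (fun i => g (fun j => x (i, j)))).card * c1 := by simp
      _ ≤ 1 * c1 := Nat.mul_le_mul_right _ (sensSet_orF_card_le_one hz)
      _ = c1 := one_mul _
  · refine le_trans ?_ (le_max_left _ _)
    have hz' : ∀ i, g (fun j => x (i, j)) = false := by
      intro i
      by_contra h
      apply hz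
      simp only [orF, decide_eq_true_eq]
      exact ⟨i, by simpa using h⟩
    calc ∑ i ∈ sensSet orF (fun i => g (fun j => x (i, j))), (sensSet g (fun j => x (i, j))).card
        ≤ ∑ _i ∈ sensSet orF (fun i => g (fun j => x (i, j))), c0 :=
          sum_le_sum fun i _ => h0 _ (hz' i)
      _ = (sensSet orF (fun i => g (fun j => x (i, j)))).card * c0 := by simp
      _ ≤ Fintype.card I * c0 := Nat.mul_le_mul_right _ (card_le_univ _)

end composition

section parity

variable {T : Type*} [Fintype T] [DecidableEq T]

/-- parity of a bit vector as an element of `ZMod 2` -/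
def parZ (w : T → Bool) : ZMod 2 := ∑ v, if w v then 1 else 0

lemma parZ_flip (w : T → Bool) (v : T) : parZ (flip w v) = parZ w + 1 := by
  unfold parZ
  rw [← Finset.add_sum_erase _ _ (mem_univ v), ← Finset.add_sum_erase (a := v) univ
    (fun v => if w v then (1 : ZMod 2) else 0) (mem_univ v)]
  have h1 : ∑ u ∈ univ.erase v, (if flip w v u then (1 : ZMod 2) else 0)
      = ∑ u ∈ univ.erase v, (if w u then (1 : ZMod 2) else 0) := by
    refine sum_congr rfl fun u hu => ?_
    rw [flip_ne _ (ne_of_mem_erase hu)]
  rw [h1, flip_same]
  cases w v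
  · simp
    ring
  · simp
    have : (1 : ZMod 2) + 1 = 0 := by decide
    rw [add_right_comm, this, zero_add]

end parity

section code

variable {T : Type*} [Fintype T] [DecidableEq T]

/-- the code gadget: both copies agree and have odd parity -/
def codeF (x : Bool × T → Bool) : Bool :=
  decide ((∀ v, x (false, v) = x (true, v)) ∧ parZ (fun v => x (false, v)) = 1)

lemma codeF_eq_true (x : Bool × T → Bool) :
    codeF x = true ↔ (∀ v, x (false, v) = x (true, v)) ∧ parZ (fun v => x (false, v)) = 1 := by
  simp [codeF]

lemma codeF_dup (w : T → Bool) : codeF (fun q : Bool × T => w q.2) = decide (parZ w = 1) := by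
  simp [codeF]

/-- two different single flips cannot both lead to codewords -/
lemma codeF_flip_flip {y : Bool × T → Bool} {i j : Bool × T} (hij : i ≠ j)
    (hy : codeF y = true) : codeF (flip (flip y i) j) = false := by
  rw [codeF_eq_true] at hy
  obtain ⟨hy1, hy2⟩ := hy
  by_contra hcon
  rw [Bool.not_eq_false, codeF_eq_true] at hcon
  obtain ⟨hc1, hc2⟩ := hcon
  obtain ⟨a, v⟩ := i
  obtain ⟨b, u⟩ := j
  by_cases hvu : v = u
  · subst hvu
    have hab : a ≠ b := fun h => hij (by rw [h])
    have hpar : (fun w => flip (flip y (a, v)) (b, v) (false, w))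
        = flip (fun w => y (false, w)) v := by
      funext w
      by_cases hw : w = v
      · subst hw
        rw [flip_same]
        cases a
        · have hb : b = true := by cases b <;> simp_all
          subst hb
          rw [flip_ne _ (by simp), flip_same]
        · have hb : b = false := by cases b <;> simp_all
          subst hb
          rw [flip_same, flip_ne _ (by simp)]
      · rw [flip_ne _ (by simp [hw]), flip_ne _ (by simp [hw]), flip_ne _ hw]
    rw [hpar, parZ_flip, hy2] at hc2
    revert hc2
    decide
  · have h := hc1 v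
    have h1 : ∀ c : Bool, flip (flip y (a, v)) (b, u) (c, v) = flip y (a, v) (c, v) := by
      intro c
      rw [flip_ne]
      simp [hvu]
    rw [h1, h1] at h
    cases a
    · rw [flip_same, flip_ne _ (by simp), hy1 v] at h
      simp at h
    · rw [flip_same, flip_ne _ (by simp), hy1 v] at h
      simp at h

lemma flip_flip_of_ne {ι : Type*} [DecidableEq ι] (x : ι → Bool) {i j : ι} (h : i ≠ j) :
    flip x j = flip (flip (flip x i) i) j := by
  have : flip (flip x i) i = x := by
    funext k
    by_cases hk : k = i
    · subst hk; simp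
    · rw [flip_ne _ hk, flip_ne _ hk]
  rw [this]

lemma codeF_sens_false {x : Bool × T → Bool} (hx : codeF x = false) :
    (sensSet codeF x).card ≤ 1 := by
  rw [card_le_one]
  intro i hi j hj
  by_contra hij
  rw [mem_sensSet, hx, ne_eq, Bool.not_eq_false] at hi hj
  have := codeF_flip_flip hij hi
  -- flip (flip (flip x i) i) j = flip x j
  rw [← flip_flip_of_ne x hij, hj] at this
  exact absurd this (by simp)

lemma codeF_sens (x : Bool × T → Bool) : (sensSet codeF x).card ≤ 2 * Fintype.card T := by
  refine (card_le_univ _).trans ?_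
  simp

end code

section pairs

variable {p : ℕ}

/-- the pair code: exactly one pair is switched on -/
def pairF (z : Fin p × Bool → Bool) : Bool :=
  decide (∃ j : Fin p, ∀ q : Fin p × Bool, z q = decide (q.1 = j))

lemma pairF_eq_true (z : Fin p × Bool → Bool) :
    pairF z = true ↔ ∃ j : Fin p, ∀ q : Fin p × Bool, z q = decide (q.1 = j) := by
  simp [pairF]

lemma pairF_sens_false {z : Fin p × Bool → Bool} (hz : pairF z = false) :
    (sensSet pairF z).card ≤ 1 := by
  rw [card_le_one]
  intro i hi j hj
  by_contra hij
  rw [mem_sensSet, hz, ne_eq, Bool.not_eq_false, pairF_eq_true] at hi hj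
  obtain ⟨a, ha⟩ := hi
  obtain ⟨b, hb⟩ := hj
  -- a coordinate different from i and j
  have hagree : ∀ q : Fin p × Bool, q ≠ i → q ≠ j → (decide (q.1 = a) = decide (q.1 = b)) := by
    intro q h1 h2
    have e1 := ha q
    have e2 := hb q
    rw [flip_ne _ h1] at e1
    rw [flip_ne _ h2] at e2
    rw [← e1, ← e2]
  by_cases hab : a = b
  · subst hab
    -- then flip z i = flip z j
    have e1 := ha i
    have e2 := hb i
    rw [flip_same] at e1
    rw [flip_ne _ hij] at e2
    rw [← e2] at e1
    simp at e1
  · -- four coordinates (a,·), (b,·) all differ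
    have h1 : ∀ c : Bool, (a, c) = i ∨ (a, c) = j := by
      intro c
      by_contra hcon
      push Not at hcon
      have := hagree (a, c) hcon.1 hcon.2
      simp [hab] at this
    have h2 : ∀ c : Bool, (b, c) = i ∨ (b, c) = j := by
      intro c
      by_contra hcon
      push Not at hcon
      have := hagree (b, c) hcon.1 hcon.2
      simp [Ne.symm hab] at this
    have hba : ∀ c d : Bool, (a, c) ≠ (b, d) := fun c d h => hab (by simpa using congrArg Prod.fst h)
    rcases h1 false with h | h
    · rcases h1 true with h' | h'
      · have := h.trans h'.symm; simp at this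
      · rcases h2 false with h3 | h3
        · exact hba _ _ (h.trans h3.symm)
        · exact hba _ _ (h'.trans h3.symm)
    · rcases h1 true with h' | h'
      · rcases h2 false with h3 | h3
        · exact hba _ _ (h'.trans h3.symm)
        · exact hba _ _ (h.trans h3.symm)
      · have := h.trans h'.symm; simp at this

lemma pairF_sens (z : Fin p × Bool → Bool) : (sensSet pairF z).card ≤ 2 * p := by
  refine (card_le_univ _).trans ?_
  simp [mul_comm]

end pairs

section gadget

/-- the lifting gadget on four bits: `(false, c)` are two data bits, `(true, false)` selects one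
of them and `(true, true)` is xor-ed to it -/
def gadF (x : Bool × Bool → Bool) : Bool :=
  xor (x (false, x (true, false))) (x (true, true))

lemma gadF_sens (x : Bool × Bool → Bool) : (sensSet gadF x).card ≤ 3 := by
  revert x
  decide

end gadget

end Pool.Agent.H53.SD
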