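import Pool.Agent.H53.SD.Mixed
import Pool.Agent.H53.SD.Main

/-!
Transport along an embedding of the variables into `Fin n`.
-/

set_option autoImplicit false

namespace Pool.Agent.H53.SD

open Finset

section transport

variable {U : Type*} [Fintype U] [DecidableEq U] {n : ℕ}

/-- extend an assignment by `false` outside the range of the embedding -/
noncomputable def ext (emb : U ↪ Fin n) (z : U → Bool) : Fin n → Bool :=
  Function.extend emb z (fun _ => false)

omit [Fintype U] [DecidableEq U] in
@[simp] lemma ext_emb (emb : U ↪ Fin n) (z : U → Bool) (q : U) : ext emb z (emb q) = z q :=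
  emb.injective.extend_apply z _ q

omit [Fintype U] [DecidableEq U] in
lemma ext_of_not (emb : U ↪ Fin n) (z : U → Bool) (i : Fin n) (h : ¬ ∃ q, emb q = i) :
    ext emb z i = false := Function.extend_apply' _ _ _ h

omit [DecidableEq U] in
lemma chi_ext (emb : U ↪ Fin n) (T : Finset (Fin n)) (z : U → Bool) :
    chi T (ext emb z) = chi (univ.filter (fun q => emb q ∈ T)) z := by
  classical
  unfold chi
  have h1 : ∏ q ∈ univ.filter (fun q => emb q ∈ T), cs (z q)
      = ∏ i ∈ (univ.filter (fun q => emb q ∈ T)).map emb, cs (ext emb z i) := by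
    rw [prod_map]
    refine prod_congr rfl fun q _ => ?_
    rw [ext_emb]
  rw [h1]
  symm
  refine prod_subset ?_ ?_
  · intro i hi
    rw [mem_map] at hi
    obtain ⟨q, hq, rfl⟩ := hi
    exact (mem_filter.1 hq).2
  · intro i hi hni
    rw [ext_of_not]
    · rfl
    · rintro ⟨q, rfl⟩
      apply hni
      rw [mem_map]
      exact ⟨q, mem_filter.2 ⟨mem_univ _, hi⟩, rfl⟩

/-- pull back a set of literals -/
def pull (emb : U ↪ Fin n) (L : Finset (Fin n × Bool)) : Finset (U × Bool) :=
  univ.filter (fun p => (emb p.1, p.2) ∈ L)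

lemma conj_ext (emb : U ↪ Fin n) (L : Finset (Fin n × Bool)) (z : U → Bool) :
    conjF L (ext emb z) = true ↔
      (∀ l ∈ L, (¬ ∃ q, emb q = l.1) → l.2 = false) ∧ conjF (pull emb L) z = true := by
  rw [conjF_eq_true, conjF_eq_true]
  constructor
  · intro h
    refine ⟨fun l hl hn => ?_, fun l hl => ?_⟩
    · rw [← h l hl, ext_of_not emb z l.1 hn]
    · unfold pull at hl
      rw [mem_filter] at hl
      have := h _ hl.2
      simpa using this
  · rintro ⟨h1, h2⟩ ⟨i, w⟩ hl
    by_cases hi : ∃ q, emb q = i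
    · obtain ⟨q, rfl⟩ := hi
      simp only [ext_emb]
      exact h2 (q, w) (by unfold pull; rw [mem_filter]; exact ⟨mem_univ _, hl⟩)
    · simp only
      rw [ext_of_not emb z i hi]
      exact (h1 _ hl hi).symm

lemma gmon_ext (emb : U ↪ Fin n) (T : Finset (Fin n)) (L : Finset (Fin n × Bool)) :
    ∃ κ : ℝ, ∀ z : U → Bool, gmon T L (ext emb z)
      = κ * gmon (univ.filter (fun q => emb q ∈ T)) (pull emb L) z := by
  classical
  by_cases h : ∀ l ∈ L, (¬ ∃ q, emb q = l.1) → l.2 = false
  · refine ⟨1, fun z => ?_⟩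
    unfold gmon
    rw [chi_ext, one_mul]
    congr 1
    refine if_congr ?_ rfl rfl
    rw [conj_ext]
    exact ⟨fun h' => h'.2, fun h' => ⟨h, h'⟩⟩
  · refine ⟨0, fun z => ?_⟩
    unfold gmon
    rw [if_neg, mul_zero, zero_mul]
    rw [conj_ext]
    exact fun h' => h h'.1

omit [DecidableEq U] in
lemma lin_ext (emb : U ↪ Fin n) (u : Fin n → ℝ) (z : U → Bool) :
    ∑ i, u i * bv (ext emb z i) = ∑ q, u (emb q) * bv (z q) := by
  classical
  have h1 : ∑ q, u (emb q) * bv (z q)
      = ∑ i ∈ (univ : Finset U).map emb, u i * bv (ext emb z i) := by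
    rw [sum_map]
    refine sum_congr rfl fun q _ => ?_
    rw [ext_emb]
  rw [h1]
  symm
  refine sum_subset (subset_univ _) fun i _ hni => ?_
  rw [ext_of_not]
  · simp [bv]
  · rintro ⟨q, rfl⟩
    apply hni
    rw [mem_map]
    exact ⟨q, mem_univ _, rfl⟩

lemma poly_ext (emb : U ↪ Fin n) (P : MvPolynomial (Fin n) ℝ) :
    (fun z : U → Bool => MvPolynomial.eval (fun i => bv (ext emb z i)) P)
      ∈ degLE U P.totalDegree := by
  classical
  have e : (fun z : U → Bool => MvPolynomial.eval (fun i => bv (ext emb z i)) P)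
      = ∑ m ∈ P.support, P.coeff m • (fun z : U → Bool => ∏ i ∈ m.support, bv (ext emb z i) ^ m i) := by
    funext z
    rw [MvPolynomial.eval_eq, Finset.sum_apply]
    refine sum_congr rfl fun m _ => ?_
    simp only [Pi.smul_apply, smul_eq_mul]
  rw [e]
  refine Submodule.sum_mem _ fun m hm => Submodule.smul_mem _ _ ?_
  apply Submodule.subset_span
  refine ⟨univ.filter (fun q => emb q ∈ m.support), ?_, ?_⟩
  · have h1 : (univ.filter (fun q => emb q ∈ m.support)).card ≤ m.support.card := by
      rw [← card_map emb]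
      refine card_le_card fun i hi => ?_
      rw [mem_map] at hi
      obtain ⟨q, hq, rfl⟩ := hi
      exact (mem_filter.1 hq).2
    have h2 : m.support.card ≤ m.sum (fun _ e => e) := by
      rw [Finsupp.sum, card_eq_sum_ones]
      refine sum_le_sum fun i hi => ?_
      exact Nat.one_le_iff_ne_zero.2 (Finsupp.mem_support_iff.1 hi)
    exact h1.trans (h2.trans (MvPolynomial.le_totalDegree hm))
  · intro x y hxy
    refine prod_congr rfl fun i hi => ?_
    by_cases h : ∃ q, emb q = i
    · obtain ⟨q, rfl⟩ := h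
      rw [ext_emb, ext_emb, hxy q (mem_filter.2 ⟨mem_univ _, hi⟩)]
    · rw [ext_of_not emb x i h, ext_of_not emb y i h]

end transport

section restriction

variable {V : Type*} [DecidableEq V]

lemma degLE_rest {D : ℕ} (ρ : V → Bool × Bool × Bool) {P : (V × (Bool × Bool) → Bool) → ℝ}
    (hP : P ∈ degLE (V × (Bool × Bool)) D) : (fun y => P (rest ρ y)) ∈ degLE V D := by
  unfold degLE at hP
  induction hP using Submodule.span_induction with
  | mem h hh =>
    obtain ⟨S, hS, hj⟩ := hh
    apply Submodule.subset_span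
    refine ⟨S.image (fun q => q.1), card_image_le.trans hS, ?_⟩
    intro x y hxy
    refine hj _ _ fun q hq => ?_
    unfold rest
    rw [hxy q.1 (mem_image_of_mem _ hq)]
  | zero => exact Submodule.zero_mem _
  | add P Q _ _ h1 h2 => exact Submodule.add_mem _ h1 h2
  | smul c P _ h => exact Submodule.smul_mem _ c h

lemma degree_comp_gadF {D d : ℕ} (F : (V → Bool) → Bool)
    (hF : ∀ D, ∀ P ∈ degLE V D, SignRep P F → d ≤ D)
    {P : (V × (Bool × Bool) → Bool) → ℝ} (hP : P ∈ degLE (V × (Bool × Bool)) D)
    (hs : SignRep P (comp F gadF)) : d ≤ D := by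
  refine hF D _ (degLE_rest (fun _ => (false, false, false)) hP) fun y => ?_
  have h := hs (rest (fun _ => (false, false, false)) y)
  rw [comp_gadF_rest] at h
  exact h

end restriction

end Pool.Agent.H53.SD
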